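import Pool.Agent.Helper907.AA.Scan

/-! # The lower bound for the number of crossings -/

set_option autoImplicit false
set_option linter.unusedSectionVars false
set_option linter.unusedSimpArgs false
set_option linter.unusedVariables false
set_option maxRecDepth 100000

namespace Pool.Agent.Helper907.AA

/-- A crossing of `A_k` over `A_{!k}`. -/
def isO (k : Bool) : Bool × Lb × Lb → Bool
  | (_, .a k1 _ _, .a k2 _ _) => k1 == k && k2 == !k
  | _ => false

/-- A crossing of one of the components `A_0`, `A_1` with itself. -/
def isS : Bool × Lb × Lb → Bool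
  | (_, .a k1 _ _, .a k2 _ _) => k1 == k2
  | _ => false

/-- A crossing of `A_k` over `B_j`. -/
def isAB (k j : Bool) : Bool × Lb × Lb → Bool
  | (_, .a k1 _ _, .b k2 _) => k1 == k && k2 == j
  | _ => false

/-- A crossing of `B_j` over `A_k`. -/
def isBA (j k : Bool) : Bool × Lb × Lb → Bool
  | (_, .b k1 _, .a k2 _ _) => k1 == j && k2 == k
  | _ => false

/-- The bit of a label. -/
def gb : Lb → Bool
  | .a _ _ g => g
  | .b _ _ => false

abbrev Ev : Type := Bool × Lb × Lb

theorem count_classes (l : List Ev) :
    l.countP isS + l.countP (isO false) + l.countP (isO true) +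
      (l.countP (isAB false false) + l.countP (isAB false true) + l.countP (isAB true false) +
        l.countP (isAB true true)) +
      (l.countP (isBA false false) + l.countP (isBA false true) + l.countP (isBA true false) +
        l.countP (isBA true true)) ≤ l.length := by
  induction l with
  | nil => simp
  | cons t l ih =>
    simp only [List.countP_cons, List.length_cons]
    have h : (if isS t then 1 else 0) + (if isO false t then 1 else 0) +
        (if isO true t then 1 else 0) +
        ((if isAB false false t then 1 else 0) + (if isAB false true t then 1 else 0) +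
          (if isAB true false t then 1 else 0) + (if isAB true true t then 1 else 0)) +
        ((if isBA false false t then 1 else 0) + (if isBA false true t then 1 else 0) +
          (if isBA true false t then 1 else 0) + (if isBA true true t then 1 else 0)) ≤ 1 := by
      revert t; decide
    omega

/-- A nonzero signed sum comes from a crossing of nonzero weight. -/
theorem exists_of_sumE (ψ : Lb → Lb → ℤ) (P : Ev → Bool)
    (hP : ∀ t : Ev, P t = false → ψ t.2.1 t.2.2 = 0) (l : List Ev) (h : sumE ψ l ≠ 0) :
    ∃ t ∈ l, P t = true := by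
  by_contra hc
  push Not at hc
  apply h
  induction l with
  | nil => rfl
  | cons t l ih =>
    have h1 := hP t (by simpa using hc t (by simp))
    rw [sumE_cons, h1, mul_zero, zero_add]
    by_cases h0 : sumE ψ l = 0
    · exact h0
    · exact ih h0 (fun t ht => hc t (by simp [ht]))

theorem one_le_countP (P : Ev → Bool) (l : List Ev) (h : ∃ t ∈ l, P t = true) :
    1 ≤ l.countP P := by
  rw [Nat.succ_le_iff, List.countP_pos_iff]
  exact h

/-- Parity of the number of crossings of `A_k` over `A_{!k}`. -/
theorem parity_O (k : Bool) (l : List Ev) :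
    (2 : ℤ) ∣ sumE (wAA k) l - (l.countP (isO k) : ℤ) := by
  induction l with
  | nil => simp
  | cons t l ih =>
    have h : ∀ (k : Bool) (t : Ev), (2 : ℤ) ∣ (if t.1 then 1 else -1) * wAA k t.2.1 t.2.2 -
        (if isO k t then 1 else 0) := by decide
    have h1 := h k t
    rw [sumE_cons, List.countP_cons]
    push_cast
    have : (if t.1 = true then (1 : ℤ) else -1) * wAA k t.2.1 t.2.2 + sumE (wAA k) l -
        ((l.countP (isO k) : ℤ) + (if isO k t = true then 1 else 0)) =
        ((if t.1 = true then (1 : ℤ) else -1) * wAA k t.2.1 t.2.2 -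
          (if isO k t = true then 1 else 0)) + (sumE (wAA k) l - (l.countP (isO k) : ℤ)) := by ring
    rw [this]
    exact dvd_add h1 ih

/-- The weight of the crossings of `A_k` over `A_{!k}`, with an extra sign given by the bit of the
over-strand. -/
def wG (k : Bool) : Lb → Lb → ℤ
  | .a k1 d g, .a k2 d' _ => if k1 = k ∧ k2 = !k then sd d * sd d' * sd g else 0
  | _, _ => 0

theorem sumE_filter (ψ : Lb → Lb → ℤ) (P : Ev → Bool)
    (hP : ∀ t : Ev, P t = false → ψ t.2.1 t.2.2 = 0) (l : List Ev) :
    sumE ψ (l.filter P) = sumE ψ l := by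
  induction l with
  | nil => rfl
  | cons t l ih =>
    by_cases h : P t = true
    · rw [List.filter_cons_of_pos h, sumE_cons, sumE_cons, ih]
    · rw [List.filter_cons_of_neg h, sumE_cons, hP t (by simpa using h), mul_zero, zero_add, ih]

/-- If there are exactly two crossings of `A_k` over `A_{!k}`, then their over-strands have the same
bit. -/
theorem same_bit (k : Bool) (l : List Ev) (h2 : l.countP (isO k) = 2)
    (h0 : sumE (wAA k) l = 0) (hG : sumE (wG k) l = 0) :
    ∃ γ : Bool, ∀ t ∈ l, isO k t = true → gb t.2.1 = γ := by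
  have hA : ∀ (k : Bool) (t : Ev), isO k t = false → wAA k t.2.1 t.2.2 = 0 := by decide
  have hB : ∀ (k : Bool) (t : Ev), isO k t = false → wG k t.2.1 t.2.2 = 0 := by decide
  rw [← sumE_filter _ (isO k) (hA k)] at h0
  rw [← sumE_filter _ (isO k) (hB k)] at hG
  rw [List.countP_eq_length_filter] at h2
  obtain ⟨t1, t2, ht⟩ : ∃ t1 t2, l.filter (isO k) = [t1, t2] := by
    match hl : l.filter (isO k), h2 with
    | [t1, t2], _ => exact ⟨t1, t2, rfl⟩
  have m1 : isO k t1 = true := (List.mem_filter.1 (by rw [ht]; simp : t1 ∈ l.filter (isO k))).2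
  have m2 : isO k t2 = true := (List.mem_filter.1 (by rw [ht]; simp : t2 ∈ l.filter (isO k))).2
  rw [ht] at h0 hG
  simp only [sumE_cons, sumE_nil, add_zero] at h0 hG
  have hC : ∀ (k : Bool) (t : Ev), isO k t = true →
      wG k t.2.1 t.2.2 = wAA k t.2.1 t.2.2 * sd (gb t.2.1) ∧
      (wAA k t.2.1 t.2.2 = 1 ∨ wAA k t.2.1 t.2.2 = -1) := by decide
  obtain ⟨c1, c1'⟩ := hC k t1 m1
  obtain ⟨c2, c2'⟩ := hC k t2 m2
  rw [c1, c2] at hG
  have hg : gb t1.2.1 = gb t2.2.1 := by
    by_contra hne
    have hs : sd (gb t2.2.1) = - sd (gb t1.2.1) := by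
      revert hne
      generalize gb t1.2.1 = u
      generalize gb t2.2.1 = v
      revert u v
      decide
    rw [hs] at hG
    have h3 : sd (gb t1.2.1) = 1 ∨ sd (gb t1.2.1) = -1 := by
      generalize gb t1.2.1 = u
      revert u
      decide
    rcases c1' with c | c <;> rcases c2' with c' | c' <;> rcases h3 with h3 | h3 <;>
      rw [c, c'] at h0 hG <;> rw [h3] at hG <;> split_ifs at h0 hG <;> simp at h0 hG
  refine ⟨gb t1.2.1, fun t ht' hO => ?_⟩
  have : t ∈ l.filter (isO k) := List.mem_filter.2 ⟨ht', hO⟩
  rw [ht] at this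
  simp only [List.mem_cons, List.not_mem_nil, or_false] at this
  rcases this with rfl | rfl
  · rfl
  · exact hg.symm

/-! ### The first colouring: one component lies above the other one -/

/-- The state: parity of the number of strands of `A_{!k}` to the left. -/
def par (k : Bool) (s : Bool) : Lb → Bool
  | .a k' _ _ => if k' = !k then !s else s
  | .b _ _ => s

/-- The first colouring. -/
def val1 (k : Bool) (s : Bool) : Lb → Lv (ZMod 3)
  | .a k' d g => .a k' d g (if k' = !k then 0 else if s then 1 else 2)
  | .b k' d => .b k' d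

theorem scan1 (k : Bool) :
    Scan KLb (KLv (ZMod 3)) (par k) (val1 k) (fun t => isO k t = false) where
  bar := by revert k; decide
  barτ := by revert k; decide
  posO := by revert k; decide
  posU := by revert k; decide
  posτ := by revert k; decide
  negU := by revert k; decide
  negO := by revert k; decide
  negτ := by revert k; decide

theorem exists_O (k : Bool) (W : LWord Lb) (hW : runW KLb W [] = some [])
    (hR : Rigid (KLv (ZMod 3)) prj I3 W)
    (hAB : ∀ k, ∃ t ∈ evW KLb W [], isAB k false t = true) :
    ∃ t ∈ evW KLb W [], isO k t = true := by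
  by_contra hc
  push Not at hc
  obtain ⟨ι, ⟨c, rfl⟩, hst⟩ := rigid_states KLb (KLv (ZMod 3)) (par k) (val1 k) (scan1 k) prj
    (by intro s x; cases x <;> rfl) I3 hom_I3 W hR hW
    (fun t ht => by simpa using hc t ht) false
  have hev := ev_of_states KLb (par k) (val1 k) _ false W [] hst
  obtain ⟨t1, ht1, h1⟩ := hAB k
  obtain ⟨t2, ht2, h2⟩ := hAB (!k)
  obtain ⟨⟨s1, e1⟩, -⟩ := hev t1 ht1
  obtain ⟨⟨s2, e2⟩, -⟩ := hev t2 ht2
  have key : ∀ (k s1 s2 : Bool) (c : ZMod 3) (o1 u1 o2 u2 : Lb) (b1 b2 : Bool),
      isAB k false (b1, o1, u1) = true → isAB (!k) false (b2, o2, u2) = true →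
      val1 k s1 o1 = iota (fun _ => c) o1 → val1 k s2 o2 = iota (fun _ => c) o2 → False := by
    intro k s1 s2 c o1 u1 o2 u2 b1 b2 h1 h2 e1 e2
    cases o1 <;> cases u1 <;> simp [isAB] at h1
    cases o2 <;> cases u2 <;> simp [isAB] at h2
    obtain ⟨rfl, -⟩ := h1
    obtain ⟨rfl, -⟩ := h2
    simp [val1, iota] at e1 e2
    rw [← e2] at e1
    cases s1 <;> simp at e1
    revert e1; decide
  exact key k s1 s2 c _ _ _ _ _ _ h1 h2 e1 e2

/-! ### The second colouring: directions -/

/-- The second colouring, with values in `ℤ/2`. -/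
def val2 (k : Bool) (s : Bool) : Lb → Lv (ZMod 2)
  | .a k' d g => .a k' d g (if k' = !k then (if xor d s then 1 else 0) else 0)
  | .b k' d => .b k' d

/-- A crossing of `A_k` with itself. -/
def isSk (k : Bool) : Ev → Bool
  | (_, .a k1 _ _, .a k2 _ _) => k1 == k && k2 == k
  | _ => false

theorem scan2 (k : Bool) :
    Scan KLb (KLv (ZMod 2)) (par k) (val2 k) (fun t => isSk (!k) t = false) where
  bar := by revert k; decide
  barτ := by revert k; decide
  posO := by revert k; decide
  posU := by revert k; decide
  posτ := by revert k; decide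
  negU := by revert k; decide
  negO := by revert k; decide
  negτ := by revert k; decide

/-- The contribution of a strand to the potential. -/
def phi (k s : Bool) : Lb → ℤ
  | .a k' d g => if k' = k then sd d * (if xor s g then 1 else 0) else 0
  | .b _ _ => 0

/-- The potential of a list of labels. -/
def Phi (k : Bool) : Bool → List Lb → ℤ
  | _, [] => 0
  | s, x :: d => phi k s x + Phi k (par k s x) d

theorem Phi_append (k s : Bool) (a d : List Lb) :
    Phi k s (a ++ d) = Phi k s a + Phi k (scan (par k) s a) d := by
  induction a generalizing s with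
  | nil => simp [Phi, scan]
  | cons x a ih => simp [Phi, ih, scan, add_assoc]

theorem phi_bar (k s : Bool) (x : Lb) :
    phi k s x + phi k (par k s x) (KLb.bar x) = 0 ∧
      par k (par k s x) (KLb.bar x) = s := by
  revert k s x; decide

/-- The change of the potential at a positive crossing. -/
theorem phi_pos (k s : Bool) (c : Bool → ZMod 2) (x y : Lb)
    (hx : val2 k s x = iota c x) (hy : val2 k (par k s x) y = iota c y) :
    phi k s y + phi k (par k s y) (KLb.act y x) =
      phi k s x + phi k (par k s x) y + sd (c (!k) = 1) * wG k y x ∧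
    (isSk (!k) (true, y, x) = false →
      par k (par k s y) (KLb.act y x) = par k (par k s x) y) := by
  revert hx hy
  generalize hc : c (!k) = v
  generalize hc' : c k = v'
  rcases x with ⟨kx, dx, gx⟩ | ⟨kx, dx⟩ <;> rcases y with ⟨ky, dy, gy⟩ | ⟨ky, dy⟩ <;>
    (try cases kx) <;> (try cases ky) <;> cases k <;>
    simp only [Bool.not_true, Bool.not_false] at hc hc' <;>
    simp only [val2, iota, hc, hc', Bool.not_true, Bool.not_false] <;>
    clear hc hc' <;> revert v v' <;> revert s <;> decide +revert

/-- The change of the potential at a negative crossing. -/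
theorem phi_neg (k s : Bool) (c : Bool → ZMod 2) (x y : Lb)
    (hx : val2 k s x = iota c x) (hy : val2 k (par k s x) y = iota c y) :
    phi k s (KLb.act x y) + phi k (par k s (KLb.act x y)) x =
      phi k s x + phi k (par k s x) y - sd (c (!k) = 1) * wG k x y ∧
    (isSk (!k) (false, x, y) = false →
      par k (par k s (KLb.act x y)) x = par k (par k s x) y) := by
  revert hx hy
  generalize hc : c (!k) = v
  generalize hc' : c k = v'
  rcases x with ⟨kx, dx, gx⟩ | ⟨kx, dx⟩ <;> rcases y with ⟨ky, dy, gy⟩ | ⟨ky, dy⟩ <;>
    (try cases kx) <;> (try cases ky) <;> cases k <;>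
    simp only [Bool.not_true, Bool.not_false] at hc hc' <;>
    simp only [val2, iota, hc, hc', Bool.not_true, Bool.not_false] <;>
    clear hc hc' <;> revert v v' <;> revert s <;> decide +revert

end Pool.Agent.Helper907.AA
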