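import Pool.Agent.Helper907.AA.Core

/-! # The lower bound for the number of crossings, continued -/

set_option autoImplicit false
set_option linter.unusedSectionVars false
set_option linter.unusedSimpArgs false
set_option linter.unusedVariables false
set_option maxRecDepth 100000

namespace Pool.Agent.Helper907.AA

/-- The change of the potential at a piece. -/
theorem Phi_piece (k : Bool) (c : Bool → ZMod 2) (p : LPiece Lb) (d e : List Lb)
    (hr : p.run KLb d = some e) (hd : dec (par k) (val2 k) false d = d.map (iota c))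
    (hS : ∀ t ∈ p.ev d, isSk (!k) t = false) :
    Phi k false e = Phi k false d + sd (c (!k) = 1) * sumE (wG k) (p.ev d) := by
  cases p with
  | birth i x =>
    obtain ⟨a, d', e', ha, rfl, h', rfl⟩ := (at'_eq_some _ _ _ _).1 hr
    simp only [kb, Option.some.injEq] at h'
    subst h' ha
    obtain ⟨h1, h2⟩ := phi_bar k (scan (par k) false a) x
    simp only [LPiece.ev, sumE_nil, mul_zero, add_zero, Phi_append, Phi, h2]
    linarith
  | death i =>
    obtain ⟨a, d', e', ha, rfl, h', rfl⟩ := (at'_eq_some _ _ _ _).1 hr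
    rcases d' with _ | ⟨x, _ | ⟨y, d'⟩⟩ <;> simp [kd] at h'
    obtain ⟨rfl, rfl⟩ := h'
    subst ha
    obtain ⟨h1, h2⟩ := phi_bar k (scan (par k) false a) x
    simp only [LPiece.ev, sumE_nil, mul_zero, add_zero, Phi_append, Phi, h2]
    linarith
  | pos i =>
    obtain ⟨a, d', e', ha, rfl, h', rfl⟩ := (at'_eq_some _ _ _ _).1 hr
    rcases d' with _ | ⟨x, _ | ⟨y, d'⟩⟩ <;> simp [kp] at h'
    subst h' ha
    rw [dec_append, List.map_append] at hd
    have h2 := (List.append_inj hd (by simp [dec_length])).2
    simp only [dec, List.map_cons, List.cons.injEq] at h2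
    have hev : (LPiece.pos a.length).ev (a ++ x :: y :: d') = [(true, y, x)] := by
      simp [LPiece.ev]
    rw [hev] at hS ⊢
    obtain ⟨h3, h4⟩ := phi_pos k (scan (par k) false a) c x y h2.1 h2.2.1
    simp only [Phi_append, Phi, h4 (hS _ (by simp)), sumE_cons, sumE_nil, add_zero, if_true]
    linarith
  | neg i =>
    obtain ⟨a, d', e', ha, rfl, h', rfl⟩ := (at'_eq_some _ _ _ _).1 hr
    rcases d' with _ | ⟨x, _ | ⟨y, d'⟩⟩ <;> simp [kn] at h'
    subst h' ha
    rw [dec_append, List.map_append] at hd
    have h2 := (List.append_inj hd (by simp [dec_length])).2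
    simp only [dec, List.map_cons, List.cons.injEq] at h2
    have hev : (LPiece.neg a.length).ev (a ++ x :: y :: d') = [(false, x, y)] := by
      simp [LPiece.ev]
    rw [hev] at hS ⊢
    obtain ⟨h3, h4⟩ := phi_neg k (scan (par k) false a) c x y h2.1 h2.2.1
    simp only [Phi_append, Phi, h4 (hS _ (by simp)), sumE_cons, sumE_nil, add_zero, if_true,
      Bool.false_eq_true, if_false]
    linarith

/-- The change of the potential at a diagram. -/
theorem Phi_word (k : Bool) (c : Bool → ZMod 2) (W : LWord Lb) (d e : List Lb)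
    (hr : runW KLb W d = some e)
    (hd : AllSt KLb (fun d => dec (par k) (val2 k) false d = d.map (iota c)) W d)
    (hS : ∀ t ∈ evW KLb W d, isSk (!k) t = false) :
    Phi k false e = Phi k false d + sd (c (!k) = 1) * sumE (wG k) (evW KLb W d) := by
  induction W generalizing d with
  | nil =>
    simp only [runW_nil, Option.some.injEq] at hr
    subst hr
    simp [evW]
  | cons p W ih =>
    simp only [runW_cons, Option.bind_eq_some_iff] at hr
    obtain ⟨f, hf, hr⟩ := hr
    simp only [evW, hf, List.mem_append] at hS ⊢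
    rw [ih f hr (hd.2 f hf) (fun t ht => hS t (Or.inr ht)),
      Phi_piece k c p d f hf hd.1 (fun t ht => hS t (Or.inl ht)), sumE_append]
    ring

/-- If there are no self-crossings then the signed count of the crossings of `A_k` over `A_{!k}`,
with signs given by the bits of the over-strands, vanishes. -/
theorem sum_wG (k : Bool) (W : LWord Lb) (hW : runW KLb W [] = some [])
    (hR : Rigid (KLv (ZMod 2)) prj I2 W)
    (hS : ∀ t ∈ evW KLb W [], isS t = false) : sumE (wG k) (evW KLb W []) = 0 := by
  have hS' : ∀ t ∈ evW KLb W [], isSk (!k) t = false := by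
    intro t ht
    have := hS t ht
    revert this
    rcases t with ⟨s, o, u⟩
    rcases o with ⟨ko, d1, g1⟩ | ⟨ko, d1⟩ <;> rcases u with ⟨ku, d2, g2⟩ | ⟨ku, d2⟩ <;>
      simp [isS, isSk]
    cases k <;> cases ko <;> cases ku <;> simp
  obtain ⟨ι, ⟨c, rfl⟩, hst⟩ := rigid_states KLb (KLv (ZMod 2)) (par k) (val2 k) (scan2 k) prj
    (by intro s x; cases x <;> rfl) I2 hom_I2 W hR hW hS' false
  have h := Phi_word k c W [] [] hW hst hS'
  simp only [Phi, zero_add] at h
  have hs : sd (c (!k) = 1) ≠ 0 := by
    unfold sd; split_ifs <;> simp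
  rcases mul_eq_zero.1 h.symm with h0 | h0
  · exact absurd h0 hs
  · exact h0

/-! ### The third colouring -/

/-- The third colouring. -/
def val3 (γ : Bool → Bool) (_ : Unit) : Lb → Lv (ZMod 3)
  | .a false d g => .a false d g (if g = γ false then 0 else 2)
  | .a true d g => .a true d g (if g = γ true then 1 else 2)
  | .b k d => .b k d

theorem scan3 (γ : Bool → Bool) :
    Scan KLb (KLv (ZMod 3)) (fun (_ : Unit) _ => ()) (val3 γ)
      (fun t => isS t = false ∧ ∀ k, isO k t = true → gb t.2.1 = γ k) where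
  bar := by
    intro s x
    rcases x with ⟨_ | _, d, g⟩ | ⟨k, d⟩ <;> rfl
  barτ := by intros; rfl
  posO := by intros; rfl
  posU := by
    intro s x y ⟨h1, h2⟩
    rcases x with ⟨_ | _, d, g⟩ | ⟨k, d⟩ <;> rcases y with ⟨_ | _, d', g'⟩ | ⟨k', d'⟩ <;>
      first
        | rfl
        | (simp [isS] at h1; done)
        | (have h3 := h2 false (by rfl)
           simp only [gb] at h3
           subst h3
           simp only [val3, KLb, KLv]
           generalize γ true = v
           cases g <;> cases v <;> simp <;> decide)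
        | (have h3 := h2 true (by rfl)
           simp only [gb] at h3
           subst h3
           simp only [val3, KLb, KLv]
           generalize γ false = v
           cases g <;> cases v <;> simp)
  posτ := by intros; rfl
  negU := by
    intro s y x ⟨h1, h2⟩
    rcases x with ⟨_ | _, d, g⟩ | ⟨k, d⟩ <;> rcases y with ⟨_ | _, d', g'⟩ | ⟨k', d'⟩ <;>
      first
        | rfl
        | (simp [isS] at h1; done)
        | (have h3 := h2 false (by rfl)
           simp only [gb] at h3
           subst h3
           simp only [val3, KLb, KLv]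
           generalize γ true = v
           cases g <;> cases v <;> simp <;> decide)
        | (have h3 := h2 true (by rfl)
           simp only [gb] at h3
           subst h3
           simp only [val3, KLb, KLv]
           generalize γ false = v
           cases g <;> cases v <;> simp)
  negO := by intros; rfl
  negτ := by intros; rfl

/-- What we know about all diagrams of our link. -/
structure Inv (W : LWord Lb) : Prop where
  run : runW KLb W [] = some []
  r3 : Rigid (KLv (ZMod 3)) prj I3 W
  r2 : Rigid (KLv (ZMod 2)) prj I2 W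
  aa : ∀ k, sumE (wAA k) (evW KLb W []) = 0
  ab : ∀ k j, sumE (wAB k j) (evW KLb W []) ≠ 0
  ba : ∀ j k, sumE (wBA j k) (evW KLb W []) ≠ 0

theorem wAB_ne (k j : Bool) (t : Ev) (h : isAB k j t = false) : wAB k j t.2.1 t.2.2 = 0 := by
  rcases t with ⟨s, o, u⟩
  cases o <;> cases u <;> simp [isAB, wAB] at h ⊢
  intro h1 h2
  exact absurd h2 (h h1)

theorem wBA_ne (j k : Bool) (t : Ev) (h : isBA j k t = false) : wBA j k t.2.1 t.2.2 = 0 := by
  rcases t with ⟨s, o, u⟩
  cases o <;> cases u <;> simp [isBA, wBA] at h ⊢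
  intro h1 h2
  exact absurd h2 (h h1)

theorem Inv.exAB {W : LWord Lb} (h : Inv W) (k j : Bool) :
    ∃ t ∈ evW KLb W [], isAB k j t = true :=
  exists_of_sumE (wAB k j) (isAB k j) (wAB_ne k j) _ (h.ab k j)

theorem Inv.exBA {W : LWord Lb} (h : Inv W) (j k : Bool) :
    ∃ t ∈ evW KLb W [], isBA j k t = true :=
  exists_of_sumE (wBA j k) (isBA j k) (wBA_ne j k) _ (h.ba j k)

theorem Inv.two_le {W : LWord Lb} (h : Inv W) (k : Bool) :
    2 ≤ (evW KLb W []).countP (isO k) := by
  have h1 := one_le_countP _ _ (exists_O k W h.run h.r3 (fun k => h.exAB k false))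
  have h2 := parity_O k (evW KLb W [])
  rw [h.aa k] at h2
  omega

theorem Inv.five_le {W : LWord Lb} (h : Inv W) :
    5 ≤ (evW KLb W []).countP isS + (evW KLb W []).countP (isO false) +
      (evW KLb W []).countP (isO true) := by
  by_contra hc
  have hf := h.two_le false
  have ht := h.two_le true
  have hS0 : (evW KLb W []).countP isS = 0 := by omega
  have hf2 : (evW KLb W []).countP (isO false) = 2 := by omega
  have ht2 : (evW KLb W []).countP (isO true) = 2 := by omega
  have hS : ∀ t ∈ evW KLb W [], isS t = false := by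
    intro t ht
    have := List.countP_eq_zero.1 hS0 t ht
    simpa using this
  obtain ⟨γf, hγf⟩ := same_bit false _ hf2 (h.aa false) (sum_wG false W h.run h.r2 hS)
  obtain ⟨γt, hγt⟩ := same_bit true _ ht2 (h.aa true) (sum_wG true W h.run h.r2 hS)
  have hA : ∀ t ∈ evW KLb W [], isS t = false ∧
      ∀ k, isO k t = true → gb t.2.1 = (fun k : Bool => if k then γt else γf) k := by
    intro t ht
    refine ⟨hS t ht, fun k hk => ?_⟩
    cases k
    · exact hγf t ht hk
    · exact hγt t ht hk
  obtain ⟨ι, ⟨c, rfl⟩, hst⟩ := rigid_states KLb (KLv (ZMod 3)) _ _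
    (scan3 (fun k : Bool => if k then γt else γf)) prj
    (by intro s x; rcases x with ⟨_ | _, d, g⟩ | ⟨k, d⟩ <;> rfl) I3 hom_I3 W h.r3 h.run hA ()
  have hev := ev_of_states KLb _ _ _ () W [] hst
  obtain ⟨t1, ht1, h1⟩ : ∃ t ∈ evW KLb W [], isO false t = true := by
    have : 0 < (evW KLb W []).countP (isO false) := by omega
    exact List.countP_pos_iff.1 this
  obtain ⟨t2, ht2, h2⟩ : ∃ t ∈ evW KLb W [], isO true t = true := by
    have : 0 < (evW KLb W []).countP (isO true) := by omega
    exact List.countP_pos_iff.1 this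
  obtain ⟨⟨s1, e1⟩, -⟩ := hev t1 ht1
  obtain ⟨⟨s2, e2⟩, -⟩ := hev t2 ht2
  have g1 := hγf t1 ht1 h1
  have g2 := hγt t2 ht2 h2
  rcases t1 with ⟨b1, o1, u1⟩
  rcases t2 with ⟨b2, o2, u2⟩
  rcases o1 with ⟨_ | _, d1, g1'⟩ | ⟨k1, d1⟩ <;> rcases u1 with ⟨ku1, du1, gu1⟩ | ⟨ku1, du1⟩ <;>
    simp [isO] at h1
  rcases o2 with ⟨_ | _, d2, g2'⟩ | ⟨k2, d2⟩ <;> rcases u2 with ⟨ku2, du2, gu2⟩ | ⟨ku2, du2⟩ <;>
    simp [isO] at h2
  simp only [gb] at g1 g2
  subst g1 g2
  simp [val3, iota] at e1 e2
  rw [← e1] at e2
  exact absurd e2 (by decide)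

/-- Every diagram has at least 13 crossings. -/
theorem Inv.thirteen_le {W : LWord Lb} (h : Inv W) : 13 ≤ (evW KLb W []).length := by
  have h0 := count_classes (evW KLb W [])
  have h1 := h.five_le
  have hab : ∀ k j, 1 ≤ (evW KLb W []).countP (isAB k j) := fun k j =>
    one_le_countP _ _ (h.exAB k j)
  have hba : ∀ j k, 1 ≤ (evW KLb W []).countP (isBA j k) := fun j k =>
    one_le_countP _ _ (h.exBA j k)
  have := hab false false
  have := hab false true
  have := hab true false
  have := hab true true
  have := hba false false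
  have := hba false true
  have := hba true false
  have := hba true true
  omega

section

variable {X : Type} (S : Kei X) [DecidableEq X]

theorem ev_length (p : LPiece X) (d e : List X) (h : p.run S d = some e) :
    (p.ev d).length = if p.forget.isCrossing then 1 else 0 := by
  cases p with
  | birth i x => rfl
  | death i => rfl
  | pos i =>
    obtain ⟨a, d', e', ha, rfl, h', rfl⟩ := (at'_eq_some _ _ _ _).1 h
    rcases d' with _ | ⟨x, _ | ⟨y, d'⟩⟩ <;> simp [kp] at h'
    subst ha
    simp [LPiece.ev, LPiece.forget, Piece.isCrossing]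
  | neg i =>
    obtain ⟨a, d', e', ha, rfl, h', rfl⟩ := (at'_eq_some _ _ _ _).1 h
    rcases d' with _ | ⟨x, _ | ⟨y, d'⟩⟩ <;> simp [kn] at h'
    subst ha
    simp [LPiece.ev, LPiece.forget, Piece.isCrossing]

theorem evW_length (W : LWord X) (d e : List X) (h : runW S W d = some e) :
    (evW S W d).length = crossings (W.map LPiece.forget) := by
  induction W generalizing d with
  | nil => rfl
  | cons p W ih =>
    simp only [runW_cons, Option.bind_eq_some_iff] at h
    obtain ⟨f, hf, h⟩ := h
    simp only [evW, hf, List.length_append, ih f h, ev_length S p d f hf, List.map_cons, crossings,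
      List.countP_cons]
    omega

end

theorem Inv.step {w w' : Word} (h : Step w w' ∨ Step w' w)
    (hw : ∃ W : LWord Lb, W.map LPiece.forget = w ∧ Inv W) :
    ∃ W : LWord Lb, W.map LPiece.forget = w' ∧ Inv W := by
  obtain ⟨W, hf, hW⟩ := hw
  obtain ⟨W', hf', hrun, hls, hsum⟩ := lift_step KLb w w' h W hf hW.run
  refine ⟨W', hf', hrun, ?_, ?_, ?_, ?_, ?_⟩
  · exact rigid_step KLb (KLv (ZMod 3)) prj hom_prj I3 hom_I3 W W' hls hW.r3
  · exact rigid_step KLb (KLv (ZMod 2)) prj hom_prj I2 hom_I2 W W' hls hW.r2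
  · intro k; rw [hsum _ (good_AA k)]; exact hW.aa k
  · intro k j; rw [hsum _ (good_AB k j)]; exact hW.ab k j
  · intro j k; rw [hsum _ (good_BA j k)]; exact hW.ba j k

theorem Inv.isotopic {w w' : Word} (h : Isotopic w w') :
    (∃ W : LWord Lb, W.map LPiece.forget = w ∧ Inv W) ↔
    (∃ W : LWord Lb, W.map LPiece.forget = w' ∧ Inv W) := by
  induction h with
  | rel x y h => exact ⟨Inv.step (Or.inl h), Inv.step (Or.inr h)⟩
  | refl x => exact Iff.rfl
  | symm x y _ ih => exact ih.symm
  | trans x y z _ _ ih1 ih2 => exact ih1.trans ih2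

theorem Inv.lower {w w' : Word} (h : Isotopic w w')
    (hw : ∃ W : LWord Lb, W.map LPiece.forget = w ∧ Inv W) : 13 ≤ crossings w' := by
  obtain ⟨W, hf, hW⟩ := (Inv.isotopic h).1 hw
  rw [← hf, ← evW_length KLb W [] [] hW.run]
  exact hW.thirteen_le

end Pool.Agent.Helper907.AA
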