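import Mathlib

/-!
# Link diagrams, Reidemeister moves, alternating and almost alternating diagrams

A link diagram in the plane is cut by horizontal lines into elementary pieces, read from top to
bottom (a sliced diagram, also called a Morse diagram).  Between two pieces there are finitely many vertical
strands, numbered `0, 1, 2, ...` from left to right.  Every link diagram can be brought to this form
by a planar isotopy, which does not change its crossings.  Two diagrams present the same link if and
only if they are related by the moves below: planar isotopies of sliced diagrams and the three
Reidemeister moves.
-/

set_option autoImplicit false

namespace Pool.Agent.Helper907.AA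

/-- The elementary pieces of a sliced link diagram:
* `birth i`: a local maximum, creating two new adjacent strands at the positions `i` and `i+1`;
* `death i`: a local minimum, joining the adjacent strands at the positions `i` and `i+1`;
* `pos i`: a crossing of the strands `i` and `i+1` in which the strand running from top right to
  bottom left passes over the other one;
* `neg i`: the opposite crossing, in which the strand running from top left to bottom right passes
  over the other one. -/
inductive Piece : Type
  | birth (i : ℕ) : Piece
  | death (i : ℕ) : Piece
  | pos (i : ℕ) : Piece
  | neg (i : ℕ) : Piece
  deriving DecidableEq

/-- Diagrams (possibly with endpoints at the top and at the bottom): lists of pieces, read from top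
to bottom. -/
abbrev Word : Type := List Piece

namespace Piece

/-- The number of strands a piece uses at its top. -/
def ins : Piece → ℕ
  | birth _ => 0
  | _ => 2

/-- The number of strands a piece has at its bottom. -/
def outs : Piece → ℕ
  | death _ => 0
  | _ => 2

/-- The position of a piece. -/
def index : Piece → ℕ
  | birth i => i
  | death i => i
  | pos i => i
  | neg i => i

/-- The same kind of piece, at position `j`. -/
def moved (j : ℕ) : Piece → Piece
  | birth _ => birth j
  | death _ => death j
  | pos _ => pos j
  | neg _ => neg j

/-- The number of strands below the piece if there are `n` strands above it
(`none` if the piece does not fit). -/
def width : Piece → ℕ → Option ℕ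
  | birth i, n => if i ≤ n then some (n + 2) else none
  | death i, n => if i + 2 ≤ n then some (n - 2) else none
  | pos i, n => if i + 2 ≤ n then some n else none
  | neg i, n => if i + 2 ≤ n then some n else none

/-- Is the piece a crossing? -/
def isCrossing : Piece → Bool
  | pos _ => true
  | neg _ => true
  | _ => false

/-- Changing a crossing: the over-strand becomes the under-strand. -/
def switch : Piece → Piece
  | birth i => birth i
  | death i => death i
  | pos i => neg i
  | neg i => pos i

/-- Directing the strands at a piece.  `d` lists directions of the strands above the piece, from left
to right (`true` = downwards, `false` = upwards); the value is the list of the directions of the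
strands below it, or `none` if the directions are not allowed.

* The two strands at a local maximum or minimum belong to the same arc of the diagram, so one of them
  is directed downwards and the other one upwards (at a maximum, `b` is the direction of the left
  one).
* At a crossing, the four strand ends belong to four arcs ending there; the two ends of the
  over-strand have to be directed away from the crossing, and the two ends of the under-strand
  towards the crossing.  For `pos i`, the over-strand has its ends at the top right (directed upwards)
  and at the bottom left (directed downwards), and the under-strand has its ends at the top left
  (directed downwards) and at the bottom right (directed upwards).  For `neg i` the over-strand has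
  its ends at the top left (upwards) and at the bottom right (downwards), and the under-strand at
  the top right (downwards) and at the bottom left (upwards). -/
def dirs (b : Bool) : Piece → List Bool → Option (List Bool)
  | birth i, d => if i ≤ d.length then some (d.take i ++ [b, !b] ++ d.drop i) else none
  | death i, d =>
    match d.drop i with
    | x :: y :: r => if x = !y then some (d.take i ++ r) else none
    | _ => none
  | pos i, d =>
    match d.drop i with
    | true :: false :: r => some (d.take i ++ [true, false] ++ r)
    | _ => none
  | neg i, d =>
    match d.drop i with
    | false :: true :: r => some (d.take i ++ [false, true] ++ r)
    | _ => none

end Piece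

open Piece

/-- The number of strands below a diagram if there are `n` strands above it. -/
def width : Word → ℕ → Option ℕ
  | [], n => some n
  | p :: w, n => (p.width n).bind (width w)

/-- Link diagrams: no endpoints. -/
def Closed (w : Word) : Prop := width w 0 = some 0

/-- The number of crossings of a diagram. -/
def crossings (w : Word) : ℕ := w.countP Piece.isCrossing

/-! ### Links: diagrams modulo planar isotopy and Reidemeister moves -/

/-- The local moves which generate regular isotopy of sliced diagrams: planar isotopy (exchange of
the heights of two pieces which are next to each other, straightening of a zigzag, sliding a
crossing through a maximum or a minimum) and the Reidemeister moves II and III. -/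
inductive LocalMove : Word → Word → Prop
  | exchange (p q : Piece) (h : p.index + p.ins ≤ q.index) :
      LocalMove [p, q.moved (q.index + p.outs - p.ins)] [q, p]
  | zigzag₁ (i : ℕ) : LocalMove [birth i, death (i + 1)] []
  | zigzag₂ (i : ℕ) : LocalMove [birth (i + 1), death i] []
  | slideBirth₁ (i : ℕ) : LocalMove [birth i, pos (i + 1)] [birth (i + 1), neg i]
  | slideBirth₂ (i : ℕ) : LocalMove [birth i, neg (i + 1)] [birth (i + 1), pos i]
  | slideDeath₁ (i : ℕ) : LocalMove [pos (i + 1), death i] [neg i, death (i + 1)]
  | slideDeath₂ (i : ℕ) : LocalMove [neg (i + 1), death i] [pos i, death (i + 1)]
  | second₁ (i : ℕ) : LocalMove [pos i, neg i] []
  | second₂ (i : ℕ) : LocalMove [neg i, pos i] []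
  | third (i : ℕ) : LocalMove [pos i, pos (i + 1), pos i] [pos (i + 1), pos i, pos (i + 1)]

/-- The first Reidemeister move (removal of a curl). -/
inductive FirstMove : Word → Word → Prop
  | birthPos (i : ℕ) : FirstMove [birth i, pos i] [birth i]
  | birthNeg (i : ℕ) : FirstMove [birth i, neg i] [birth i]
  | deathPos (i : ℕ) : FirstMove [pos i, death i] [death i]
  | deathNeg (i : ℕ) : FirstMove [neg i, death i] [death i]

/-- Two link diagrams differ by one move (the diagrams `x`, `y` above and below the place of the
move are not changed). -/
inductive Step : Word → Word → Prop
  | mk (x l r y : Word) : LocalMove l r ∨ FirstMove l r →
      Closed (x ++ l ++ y) → Closed (x ++ r ++ y) → Step (x ++ l ++ y) (x ++ r ++ y)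

/-- Two link diagrams present the same link: they are related by a finite sequence of moves and
inverse moves. -/
def Isotopic : Word → Word → Prop := Relation.EqvGen Step

/-- The crossing number of the link with diagram `D`: the least number of crossings of a diagram of
the same link. -/
noncomputable def crossingNumber (D : Word) : ℕ :=
  sInf {n | ∃ E : Word, Closed E ∧ Isotopic D E ∧ crossings E = n}

/-! ### Alternating and almost alternating diagrams -/

/-- The strands of the diagram `w` can be directed, with the directions `d` at its top, according to
the rules of `Piece.dirs`. -/
def Directable : Word → List Bool → Prop
  | [], d => d = []
  | p :: w, d => ∃ b : Bool, ∃ e : List Bool, p.dirs b d = some e ∧ Directable w e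

/-- A diagram is alternating if, travelling along each component, the crossings are met alternately
as over- and under-crossings. Equivalently, each arc of the diagram between two consecutive
crossings of its component is the end of the over-strand at one of its ends and the end of the
under-strand at the other one; that is, all arcs of the diagram can be directed so that each of them
leaves an over-crossing and arrives at an under-crossing. -/
def Alternating (w : Word) : Prop := Directable w []

/-- A diagram is almost alternating if it is not alternating, but changing exactly one crossing
makes it alternating. -/
def AlmostAlternating (w : Word) : Prop :=
  ¬ Alternating w ∧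
    ∃ (x : Word) (p : Piece) (y : Word), w = x ++ [p] ++ y ∧ p.isCrossing = true ∧
      Alternating (x ++ [p.switch] ++ y)

end Pool.Agent.Helper907.AA
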