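import Pool.Agent.Helper907.AA.Core2

/-! # The example -/

set_option autoImplicit false
set_option linter.unusedSectionVars false
set_option linter.unusedSimpArgs false
set_option linter.unusedVariables false
set_option maxRecDepth 100000

namespace Pool.Agent.Helper907.AA

open Piece

/-- The example: a diagram with 4 components and 13 crossings. -/
def exD : Word :=
  [birth 0, birth 1, birth 2, neg 1, neg 3, pos 0, pos 4, neg 1, neg 3, death 2, pos 1, birth 2,
    neg 1, neg 3, pos 0, pos 4, neg 1, neg 3, death 2, death 1, death 0]

/-- The example with labels. -/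
def exW : LWord Lb :=
  [.birth 0 (.b false true), .birth 1 (.a false true false), .birth 2 (.a true true false),
    .neg 1, .neg 3, .pos 0, .pos 4, .neg 1, .neg 3, .death 2, .pos 1, .birth 2 (.b true true),
    .neg 1, .neg 3, .pos 0, .pos 4, .neg 1, .neg 3, .death 2, .death 1, .death 0]

/-- All lifts of a piece. -/
def liftP {M : Type} (m : List M) : LPiece Lb → List (LPiece (Lv M))
  | .birth i (.a k d g) => m.map fun v => .birth i (.a k d g v)
  | .birth i (.b k d) => [.birth i (.b k d)]
  | .death i => [.death i]
  | .pos i => [.pos i]
  | .neg i => [.neg i]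

/-- All lifts of a diagram. -/
def liftW {M : Type} (m : List M) : LWord Lb → List (LWord (Lv M))
  | [] => [[]]
  | p :: W => (liftP m p).flatMap fun q => (liftW m W).map fun V => q :: V

theorem mem_liftP {M : Type} (m : List M) (hm : ∀ v, v ∈ m) (q : LPiece (Lv M)) :
    q ∈ liftP m (q.map prj) := by
  rcases q with ⟨i, ⟨k, d, g, v⟩ | ⟨k, d⟩⟩ | i | i | i <;> simp [LPiece.map, prj, liftP, hm]

theorem mem_liftW {M : Type} (m : List M) (hm : ∀ v, v ∈ m) (V : LWord (Lv M)) :
    V ∈ liftW m (V.map (LPiece.map prj)) := by
  induction V with
  | nil => simp [liftW]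
  | cons q V ih =>
    simp only [List.map_cons, liftW, List.mem_flatMap, List.mem_map]
    exact ⟨q, mem_liftP m hm q, V, ih, rfl⟩

theorem exW_forget : exW.map LPiece.forget = exD := by decide

theorem exW_r3 : Rigid (KLv (ZMod 3)) prj I3 exW := by
  intro V hV hπ
  have hmem := mem_liftW [(0 : ZMod 3), 1, 2] (by decide) V
  rw [hπ] at hmem
  have key : ∀ V ∈ liftW [(0 : ZMod 3), 1, 2] exW, runW (KLv (ZMod 3)) V [] = some [] →
      ∃ c : ZMod 3, V = exW.map (LPiece.map (iota (fun _ => c))) := by decide
  obtain ⟨c, hc⟩ := key V hmem hV
  exact ⟨_, ⟨c, rfl⟩, hc⟩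

theorem exW_r2 : Rigid (KLv (ZMod 2)) prj I2 exW := by
  intro V hV hπ
  have hmem := mem_liftW [(0 : ZMod 2), 1] (by decide) V
  rw [hπ] at hmem
  have key : ∀ V ∈ liftW [(0 : ZMod 2), 1] exW, runW (KLv (ZMod 2)) V [] = some [] →
      ∃ c c' : ZMod 2, V = exW.map (LPiece.map (iota (fun k => if k then c' else c))) := by decide
  obtain ⟨c, c', hc⟩ := key V hmem hV
  exact ⟨_, ⟨_, rfl⟩, hc⟩

theorem exW_inv : Inv exW where
  run := by decide
  r3 := exW_r3
  r2 := exW_r2
  aa := by decide
  ab := by decide
  ba := by decide

theorem exD_closed : Closed exD := by unfold Closed; decide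

theorem exD_crossings : crossings exD = 13 := by decide

theorem exD_number : crossingNumber exD = 13 := by
  have h1 : crossingNumber exD ≤ 13 :=
    Nat.sInf_le ⟨exD, exD_closed, Relation.EqvGen.refl _, exD_crossings⟩
  have h2 : ∀ n ∈ {n | ∃ E : Word, Closed E ∧ Isotopic exD E ∧ crossings E = n}, 13 ≤ n := by
    rintro n ⟨E, -, hE, rfl⟩
    exact Inv.lower hE ⟨exW, exW_forget, exW_inv⟩
  have h3 : 13 ≤ crossingNumber exD := by
    unfold crossingNumber
    apply h2
    exact Nat.sInf_mem ⟨13, exD, exD_closed, Relation.EqvGen.refl _, exD_crossings⟩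
  omega

/-! ### Alternating diagrams: deciding -/

/-- Deciding whether the strands can be directed. -/
def directable : Word → List Bool → Bool
  | [], d => d.isEmpty
  | p :: w, d =>
    (match p.dirs false d with | some e => directable w e | none => false) ||
    (match p.dirs true d with | some e => directable w e | none => false)

theorem directable_iff (w : Word) (d : List Bool) : directable w d = true ↔ Directable w d := by
  induction w generalizing d with
  | nil => simp [directable, Directable]
  | cons p w ih =>
    simp only [directable, Directable, Bool.or_eq_true]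
    constructor
    · rintro (h | h)
      · cases hp : p.dirs false d with
        | none => simp [hp] at h
        | some e => simp only [hp] at h; exact ⟨false, e, hp, (ih e).1 h⟩
      · cases hp : p.dirs true d with
        | none => simp [hp] at h
        | some e => simp only [hp] at h; exact ⟨true, e, hp, (ih e).1 h⟩
    · rintro ⟨b, e, hp, h⟩
      cases b
      · left; simp only [hp]; exact (ih e).2 h
      · right; simp only [hp]; exact (ih e).2 h

instance (w : Word) : Decidable (Alternating w) :=
  decidable_of_iff (directable w [] = true) (directable_iff w [])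

theorem exD_almost : AlmostAlternating exD := by
  refine ⟨by decide, exD.take 10, pos 1, exD.drop 11, by decide, by decide, by decide⟩

end Pool.Agent.Helper907.AA
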