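import Pool.Agent.Helper907.AA.Defs

/-! # Labelled sliced diagrams -/

set_option autoImplicit false
set_option linter.unusedSectionVars false
set_option linter.unusedSimpArgs false
set_option linter.unusedVariables false

namespace Pool.Agent.Helper907.AA

/-- `f` applied to the part of the list from position `i` on. -/
def at' {α : Type} (f : List α → Option (List α)) : ℕ → List α → Option (List α)
  | 0, d => f d
  | _ + 1, [] => none
  | i + 1, x :: d => (at' f i d).map (x :: ·)

@[simp] theorem at'_zero {α : Type} (f : List α → Option (List α)) (d : List α) :
    at' f 0 d = f d := rfl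

@[simp] theorem at'_succ_nil {α : Type} (f : List α → Option (List α)) (i : ℕ) :
    at' f (i + 1) [] = none := rfl

@[simp] theorem at'_succ_cons {α : Type} (f : List α → Option (List α)) (i : ℕ) (x : α)
    (d : List α) : at' f (i + 1) (x :: d) = (at' f i d).map (x :: ·) := rfl

theorem at'_eq_some {α : Type} (f : List α → Option (List α)) (i : ℕ) (d e : List α) :
    at' f i d = some e ↔
      ∃ a d' e', a.length = i ∧ d = a ++ d' ∧ f d' = some e' ∧ e = a ++ e' := by
  induction i generalizing d e with
  | zero =>
    simp only [at'_zero, List.length_eq_zero_iff]
    constructor
    · intro h; exact ⟨[], d, e, rfl, rfl, h, rfl⟩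
    · rintro ⟨a, d', e', rfl, rfl, h, rfl⟩; exact h
  | succ i ih =>
    cases d with
    | nil =>
      simp only [at'_succ_nil]
      constructor
      · intro h; cases h
      · rintro ⟨a, d', e', ha, h, _⟩
        have : a = [] := by
          have := congrArg List.length h; simp at this; exact List.length_eq_zero_iff.1 (by omega)
        subst this; simp at ha
    | cons x d =>
      simp only [at'_succ_cons, Option.map_eq_some_iff]
      constructor
      · rintro ⟨e1, h, rfl⟩
        obtain ⟨a, d', e', ha, rfl, h', rfl⟩ := (ih _ _).1 h
        exact ⟨x :: a, d', e', by simp [ha], rfl, h', rfl⟩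
      · rintro ⟨a, d', e', ha, h, h', rfl⟩
        cases a with
        | nil => simp at ha
        | cons y a =>
          simp only [List.cons_append, List.cons.injEq] at h
          obtain ⟨rfl, rfl⟩ := h
          exact ⟨a ++ e', (ih _ _).2 ⟨a, d', e', by simpa using ha, rfl, h', rfl⟩, rfl⟩

theorem at'_append {α : Type} (f : List α → Option (List α)) (a d : List α) :
    at' f a.length (a ++ d) = (f d).map (a ++ ·) := by
  induction a with
  | nil => simp
  | cons x a ih => simp [ih, Option.map_map, Function.comp_def]

theorem at'_add {α : Type} (f : List α → Option (List α)) (i j : ℕ) (d : List α) :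
    at' f (i + j) d = at' (at' f j) i d := by
  induction i generalizing d with
  | zero => simp
  | succ i ih =>
    rw [Nat.succ_add]
    cases d with
    | nil => rfl
    | cons x d => simp only [Nat.succ_eq_add_one, at'_succ_cons, ih]

theorem at'_bind {α : Type} (f g : List α → Option (List α)) (i : ℕ) (d : List α) :
    (at' f i d).bind (at' g i) = at' (fun d => (f d).bind g) i d := by
  induction i generalizing d with
  | zero => rfl
  | succ i ih =>
    cases d with
    | nil => rfl
    | cons x d =>
      simp only [at'_succ_cons, ← ih]
      cases at' f i d with
      | none => rfl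
      | some e => simp

/-- Label sets: every strand of a diagram gets a label; the two ends of a maximum (or minimum) get
labels `x`, `bar x`; the label of a strand changes from `x` to `act y x` when it passes under a
strand with label `y`. -/
structure Kei (X : Type) where
  bar : X → X
  act : X → X → X
  bar_bar : ∀ x, bar (bar x) = x
  bar_act : ∀ y x, act (bar y) x = act y x
  act_bar : ∀ y x, act y (bar x) = bar (act y x)
  act_act : ∀ y x, act y (act y x) = x
  act_self : ∀ x, act x x = x
  act_dist : ∀ x y z, act (act z y) (act z x) = act z (act y x)

/-- Pieces of labelled diagrams: in `birth i x` the left one of the new strands has label `x`. -/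
inductive LPiece (X : Type) : Type
  | birth (i : ℕ) (x : X) : LPiece X
  | death (i : ℕ) : LPiece X
  | pos (i : ℕ) : LPiece X
  | neg (i : ℕ) : LPiece X
  deriving DecidableEq

/-- Labelled diagrams. -/
abbrev LWord (X : Type) : Type := List (LPiece X)

namespace LPiece

variable {X Y : Type}

/-- Forget the labels. -/
def forget : LPiece X → Piece
  | birth i _ => .birth i
  | death i => .death i
  | pos i => .pos i
  | neg i => .neg i

/-- Change the labels. -/
def map (f : X → Y) : LPiece X → LPiece Y
  | birth i x => birth i (f x)
  | death i => death i
  | pos i => pos i
  | neg i => neg i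

@[simp] theorem forget_map (f : X → Y) (p : LPiece X) : (p.map f).forget = p.forget := by
  cases p <;> rfl

/-- Change the position. -/
def moved (j : ℕ) : LPiece X → LPiece X
  | birth _ x => birth j x
  | death _ => death j
  | pos _ => pos j
  | neg _ => neg j

/-- Shift the position. -/
def shift (j : ℕ) : LPiece X → LPiece X
  | birth i x => birth (j + i) x
  | death i => death (j + i)
  | pos i => pos (j + i)
  | neg i => neg (j + i)

end LPiece

section Run

variable {X Y : Type} (S : Kei X) (T : Kei Y)

/-- A maximum at position `0`. -/
def kb (x : X) (d : List X) : Option (List X) := some (x :: S.bar x :: d)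

/-- A minimum at position `0`. -/
def kd [DecidableEq X] : List X → Option (List X)
  | x :: y :: d => if y = S.bar x then some d else none
  | _ => none

/-- A positive crossing at position `0`. -/
def kp : List X → Option (List X)
  | x :: y :: d => some (y :: S.act y x :: d)
  | _ => none

/-- A negative crossing at position `0`. -/
def kn : List X → Option (List X)
  | x :: y :: d => some (S.act x y :: x :: d)
  | _ => none

variable [DecidableEq X] [DecidableEq Y]

/-- The labels below a piece. -/
def LPiece.run : LPiece X → List X → Option (List X)
  | .birth i x, d => at' (kb S x) i d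
  | .death i, d => at' (kd S) i d
  | .pos i, d => at' (kp S) i d
  | .neg i, d => at' (kn S) i d

/-- The labels below a diagram. -/
def runW : LWord X → List X → Option (List X)
  | [], d => some d
  | p :: W, d => (p.run S d).bind (runW W)

/-- The crossings of a labelled piece: `(b, o, u)` for a positive (`b = true`) or negative crossing
with label `o` of the over-strand and label `u` of the under-strand above the crossing. -/
def LPiece.ev : LPiece X → List X → List (Bool × X × X)
  | .pos i, d => match d.drop i with
    | x :: y :: _ => [(true, y, x)]
    | _ => []
  | .neg i, d => match d.drop i with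
    | x :: y :: _ => [(false, x, y)]
    | _ => []
  | _, _ => []

/-- The crossings of a labelled diagram. -/
def evW : LWord X → List X → List (Bool × X × X)
  | [], _ => []
  | p :: W, d => p.ev d ++ (match p.run S d with
    | some e => evW W e
    | none => [])

@[simp] theorem runW_nil (d : List X) : runW S [] d = some d := rfl

@[simp] theorem runW_cons (p : LPiece X) (W : LWord X) (d : List X) :
    runW S (p :: W) d = (p.run S d).bind (runW S W) := rfl

theorem runW_append (V W : LWord X) (d : List X) :
    runW S (V ++ W) d = (runW S V d).bind (runW S W) := by
  induction V generalizing d with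
  | nil => rfl
  | cons p V ih =>
    simp only [List.cons_append, runW_cons]
    cases p.run S d with
    | none => rfl
    | some e => simp [ih]

theorem evW_append (V W : LWord X) (d e : List X) (h : runW S V d = some e) :
    evW S (V ++ W) d = evW S V d ++ evW S W e := by
  induction V generalizing d with
  | nil => simp only [runW_nil, Option.some.injEq] at h; subst h; rfl
  | cons p V ih =>
    simp only [runW_cons] at h
    simp only [List.cons_append, evW]
    cases hp : p.run S d with
    | none => simp [hp] at h
    | some f =>
      simp only [hp, Option.bind_some] at h
      simp [ih f h]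

theorem run_shift (i : ℕ) (p : LPiece X) (d : List X) :
    (p.shift i).run S d = at' (p.run S) i d := by
  cases p <;> simp only [LPiece.shift, LPiece.run, at'_add] <;> rfl

theorem ev_shift (a : List X) (p : LPiece X) (d : List X) :
    (p.shift a.length).ev (a ++ d) = p.ev d := by
  cases p <;> simp [LPiece.shift, LPiece.ev]

/-- The shifted word: `a` strands are added on the left. -/
theorem runW_shift (a : List X) (W : LWord X) (d : List X) :
    runW S (W.map (LPiece.shift a.length)) (a ++ d) = (runW S W d).map (a ++ ·) := by
  induction W generalizing d with
  | nil => rfl
  | cons p W ih =>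
    simp only [List.map_cons, runW_cons, run_shift, at'_append]
    cases p.run S d with
    | none => rfl
    | some e => simp [ih]

theorem evW_shift (a : List X) (W : LWord X) (d : List X) :
    evW S (W.map (LPiece.shift a.length)) (a ++ d) = evW S W d := by
  induction W generalizing d with
  | nil => rfl
  | cons p W ih =>
    simp only [List.map_cons, evW, run_shift, at'_append, ev_shift]
    cases p.run S d with
    | none => rfl
    | some e => simp [ih]

/-- Lengths of label lists. -/
theorem width_of_run (p : LPiece X) (d e : List X) (h : p.run S d = some e) :
    p.forget.width d.length = some e.length := by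
  cases p with
  | birth i x =>
    obtain ⟨a, d', e', ha, rfl, h', rfl⟩ := (at'_eq_some _ _ _ _).1 h
    simp only [kb, Option.some.injEq] at h'
    subst h'
    simp [LPiece.forget, Piece.width, ← ha]
    omega
  | death i =>
    obtain ⟨a, d', e', ha, rfl, h', rfl⟩ := (at'_eq_some _ _ _ _).1 h
    rcases d' with _ | ⟨x, _ | ⟨y, d'⟩⟩ <;> simp [kd] at h'
    simp [LPiece.forget, Piece.width, ← ha, h'.2]
    omega
  | pos i =>
    obtain ⟨a, d', e', ha, rfl, h', rfl⟩ := (at'_eq_some _ _ _ _).1 h
    rcases d' with _ | ⟨x, _ | ⟨y, d'⟩⟩ <;> simp [kp] at h'
    simp [LPiece.forget, Piece.width, ← ha, ← h']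
  | neg i =>
    obtain ⟨a, d', e', ha, rfl, h', rfl⟩ := (at'_eq_some _ _ _ _).1 h
    rcases d' with _ | ⟨x, _ | ⟨y, d'⟩⟩ <;> simp [kn] at h'
    simp [LPiece.forget, Piece.width, ← ha, ← h']

theorem width_of_runW (W : LWord X) (d e : List X) (h : runW S W d = some e) :
    width (W.map LPiece.forget) d.length = some e.length := by
  induction W generalizing d with
  | nil => simp only [runW_nil, Option.some.injEq] at h; subst h; rfl
  | cons p W ih =>
    simp only [runW_cons] at h
    cases hp : p.run S d with
    | none => simp [hp] at h
    | some f =>
      simp only [hp, Option.bind_some] at h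
      simp [width, width_of_run S p d f hp, ih f h]

end Run

end Pool.Agent.Helper907.AA
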