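import Pool.Agent.Helper907.AA.Lab

/-! # Lifting moves to labelled diagrams -/

set_option autoImplicit false
set_option linter.unusedSectionVars false
set_option linter.unusedSimpArgs false
set_option linter.unusedVariables false
set_option linter.unreachableTactic false
set_option linter.unnecessarySeqFocus false
set_option linter.unusedTactic false

namespace Pool.Agent.Helper907.AA

open Piece

/-- Shifting plain pieces. -/
def Piece.shift (j : ℕ) : Piece → Piece
  | birth i => birth (j + i)
  | death i => death (j + i)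
  | pos i => pos (j + i)
  | neg i => neg (j + i)

/-- The local moves at position `0`. -/
inductive Base : Word → Word → Prop
  | exchange (p q : Piece) (hp : p.index = 0) (h : p.ins ≤ q.index) :
      Base [p, q.moved (q.index + p.outs - p.ins)] [q, p]
  | zigzag₁ : Base [birth 0, death 1] []
  | zigzag₂ : Base [birth 1, death 0] []
  | slideBirth₁ : Base [birth 0, pos 1] [birth 1, neg 0]
  | slideBirth₂ : Base [birth 0, neg 1] [birth 1, pos 0]
  | slideDeath₁ : Base [pos 1, death 0] [neg 0, death 1]
  | slideDeath₂ : Base [neg 1, death 0] [pos 0, death 1]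
  | second₁ : Base [pos 0, neg 0] []
  | second₂ : Base [neg 0, pos 0] []
  | third : Base [pos 0, pos 1, pos 0] [pos 1, pos 0, pos 1]
  | birthPos : Base [birth 0, pos 0] [birth 0]
  | birthNeg : Base [birth 0, neg 0] [birth 0]
  | deathPos : Base [pos 0, death 0] [death 0]
  | deathNeg : Base [neg 0, death 0] [death 0]

theorem exists_base {p : Piece} : ∃ p0 : Piece, p0.index = 0 ∧ p = p0.shift p.index ∧
    p0.ins = p.ins ∧ p0.outs = p.outs := by
  cases p with
  | birth i => exact ⟨birth 0, rfl, rfl, rfl, rfl⟩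
  | death i => exact ⟨death 0, rfl, rfl, rfl, rfl⟩
  | pos i => exact ⟨pos 0, rfl, rfl, rfl, rfl⟩
  | neg i => exact ⟨neg 0, rfl, rfl, rfl, rfl⟩

theorem moved_shift (q : Piece) (i j : ℕ) : (q.moved j).shift i = q.moved (i + j) := by
  cases q <;> rfl

theorem moved_index (q : Piece) : q.moved q.index = q := by
  cases q <;> rfl

theorem index_moved (q : Piece) (j : ℕ) : (q.moved j).index = j := by
  cases q <;> rfl

theorem moved_moved (q : Piece) (i j : ℕ) : (q.moved j).moved i = q.moved i := by
  cases q <;> rfl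

theorem base_of_local {l r : Word} (h : LocalMove l r ∨ FirstMove l r) :
    ∃ (i : ℕ) (l' r' : Word), Base l' r' ∧ l = l'.map (Piece.shift i) ∧
      r = r'.map (Piece.shift i) := by
  rcases h with h | h
  · cases h with
    | exchange p q h =>
      obtain ⟨p0, h0, h1, h2, h3⟩ := exists_base (p := p)
      refine ⟨p.index, _, _, Base.exchange p0 (q.moved (q.index - p.index)) h0 ?_, ?_, ?_⟩
      · rw [index_moved, h2]; omega
      · simp only [List.map_cons, List.map_nil, ← h1, index_moved, moved_moved, moved_shift, h2, h3]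
        congr 3
        omega
      · simp only [List.map_cons, List.map_nil, ← h1, moved_shift]
        congr 1
        rw [Nat.add_sub_cancel' (by omega), moved_index]
    | zigzag₁ i => exact ⟨i, _, _, Base.zigzag₁, rfl, rfl⟩
    | zigzag₂ i => exact ⟨i, _, _, Base.zigzag₂, rfl, rfl⟩
    | slideBirth₁ i => exact ⟨i, _, _, Base.slideBirth₁, rfl, rfl⟩
    | slideBirth₂ i => exact ⟨i, _, _, Base.slideBirth₂, rfl, rfl⟩
    | slideDeath₁ i => exact ⟨i, _, _, Base.slideDeath₁, rfl, rfl⟩
    | slideDeath₂ i => exact ⟨i, _, _, Base.slideDeath₂, rfl, rfl⟩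
    | second₁ i => exact ⟨i, _, _, Base.second₁, rfl, rfl⟩
    | second₂ i => exact ⟨i, _, _, Base.second₂, rfl, rfl⟩
    | third i => exact ⟨i, _, _, Base.third, rfl, rfl⟩
  · cases h with
    | birthPos i => exact ⟨i, _, _, Base.birthPos, rfl, rfl⟩
    | birthNeg i => exact ⟨i, _, _, Base.birthNeg, rfl, rfl⟩
    | deathPos i => exact ⟨i, _, _, Base.deathPos, rfl, rfl⟩
    | deathNeg i => exact ⟨i, _, _, Base.deathNeg, rfl, rfl⟩

section

variable {X : Type} (S : Kei X) [DecidableEq X]

/-- Weights of crossings which only depend on the components and directions. -/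
structure Good (ψ : X → X → ℤ) : Prop where
  bar_left : ∀ o u, ψ (S.bar o) u = - ψ o u
  bar_right : ∀ o u, ψ o (S.bar u) = - ψ o u
  act_left : ∀ z o u, ψ (S.act z o) u = ψ o u
  act_right : ∀ z o u, ψ o (S.act z u) = ψ o u
  self : ∀ x, ψ x x = 0

/-- The signed sum of the weights of crossings. -/
def sumE (ψ : X → X → ℤ) (l : List (Bool × X × X)) : ℤ :=
  (l.map fun t => (if t.1 then 1 else -1) * ψ t.2.1 t.2.2).sum

@[simp] theorem sumE_nil (ψ : X → X → ℤ) : sumE ψ [] = 0 := rfl

@[simp] theorem sumE_cons (ψ : X → X → ℤ) (t) (l : List (Bool × X × X)) :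
    sumE ψ (t :: l) = (if t.1 then 1 else -1) * ψ t.2.1 t.2.2 + sumE ψ l := rfl

theorem sumE_append (ψ : X → X → ℤ) (l m : List (Bool × X × X)) :
    sumE ψ (l ++ m) = sumE ψ l + sumE ψ m := by
  simp [sumE]

theorem forget_eq_birth {p : LPiece X} {i : ℕ} : p.forget = birth i ↔ ∃ x, p = .birth i x := by
  cases p <;> simp [LPiece.forget, eq_comm]

theorem forget_eq_death {p : LPiece X} {i : ℕ} : p.forget = death i ↔ p = .death i := by
  cases p <;> simp [LPiece.forget, eq_comm]

theorem forget_eq_pos {p : LPiece X} {i : ℕ} : p.forget = pos i ↔ p = .pos i := by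
  cases p <;> simp [LPiece.forget, eq_comm]

theorem forget_eq_neg {p : LPiece X} {i : ℕ} : p.forget = neg i ↔ p = .neg i := by
  cases p <;> simp [LPiece.forget, eq_comm]

theorem moved_of_forget {Q : LPiece X} {q : Piece} {j : ℕ} (h : Q.forget = q.moved j) :
    Q = Q.moved j := by
  cases Q <;> cases q <;> simp_all [LPiece.forget, Piece.moved, LPiece.moved]

theorem forget_lmoved (Q : LPiece X) (j : ℕ) : (Q.moved j).forget = Q.forget.moved j := by
  cases Q <;> rfl

theorem lmoved_lmoved (Q : LPiece X) (i j : ℕ) : (Q.moved i).moved j = Q.moved j := by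
  cases Q <;> rfl

theorem run_moved_succ (Q : LPiece X) (k : ℕ) (x : X) (d : List X) :
    (Q.moved (k + 1)).run S (x :: d) = ((Q.moved k).run S d).map (x :: ·) := by
  cases Q <;> rfl

theorem run_moved_succ_nil (Q : LPiece X) (k : ℕ) :
    (Q.moved (k + 1)).run S [] = none := by
  cases Q <;> rfl

theorem ev_moved_succ (Q : LPiece X) (k : ℕ) (x : X) (d : List X) :
    (Q.moved (k + 1)).ev (x :: d) = (Q.moved k).ev d := by
  cases Q <;> rfl

theorem run_b0 (x : X) (d : List X) : (LPiece.birth 0 x).run S d = some (x :: S.bar x :: d) := rfl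
theorem run_d0 (x y : X) (d : List X) :
    (LPiece.death 0).run S (x :: y :: d) = if y = S.bar x then some d else none := rfl
theorem run_d0_nil : (LPiece.death 0).run S [] = none := rfl
theorem run_d0_one (x : X) : (LPiece.death 0).run S [x] = none := rfl
theorem run_p0 (x y : X) (d : List X) :
    (LPiece.pos 0).run S (x :: y :: d) = some (y :: S.act y x :: d) := rfl
theorem run_p0_nil : (LPiece.pos 0).run S [] = none := rfl
theorem run_p0_one (x : X) : (LPiece.pos 0).run S [x] = none := rfl
theorem run_n0 (x y : X) (d : List X) :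
    (LPiece.neg 0).run S (x :: y :: d) = some (S.act x y :: x :: d) := rfl
theorem run_n0_nil : (LPiece.neg 0).run S [] = none := rfl
theorem run_n0_one (x : X) : (LPiece.neg 0).run S [x] = none := rfl

/-- Exchanging the heights of two labelled pieces. -/
theorem exch_run (P Q : LPiece X) (j : ℕ) (hP : P.forget.index = 0) (h : P.forget.ins ≤ j)
    (d : List X) :
    runW S [P, Q.moved (j + P.forget.outs - P.forget.ins)] d = runW S [Q.moved j, P] d := by
  cases P with
  | birth i x =>
    simp only [LPiece.forget, Piece.index] at hP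
    subst hP
    simp only [LPiece.forget, Piece.ins, Piece.outs, runW_cons, run_b0, Option.bind_some,
      Nat.sub_zero, run_moved_succ]
    cases (Q.moved j).run S d <;> simp [run_b0]
  | death i =>
    simp only [LPiece.forget, Piece.index] at hP
    subst hP
    obtain ⟨j, rfl⟩ : ∃ k, j = k + 2 := ⟨j - 2, by simp [LPiece.forget, Piece.ins] at h; omega⟩
    rcases d with _ | ⟨x, _ | ⟨y, d⟩⟩
    · simp only [LPiece.forget, Piece.ins, Piece.outs, runW_cons, run_d0_nil, run_moved_succ,
        run_moved_succ_nil, Option.bind_none, Option.bind_some]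
    · simp only [LPiece.forget, Piece.ins, Piece.outs, runW_cons, run_d0_one, run_moved_succ,
        run_moved_succ_nil, Option.bind_none, Option.bind_some, Option.map_none]
    · simp only [LPiece.forget, Piece.ins, Piece.outs, runW_cons, runW_nil, run_d0, run_moved_succ,
        Nat.add_zero, Nat.add_sub_cancel]
      by_cases hxy : y = S.bar x
      · rw [if_pos hxy]
        simp only [Option.bind_some]
        cases (Q.moved j).run S d <;> simp [run_d0, hxy]
      · rw [if_neg hxy]
        cases (Q.moved j).run S d <;> simp [run_d0, hxy]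
  | pos i =>
    simp only [LPiece.forget, Piece.index] at hP
    subst hP
    obtain ⟨j, rfl⟩ : ∃ k, j = k + 2 := ⟨j - 2, by simp [LPiece.forget, Piece.ins] at h; omega⟩
    rcases d with _ | ⟨x, _ | ⟨y, d⟩⟩
    · simp only [LPiece.forget, Piece.ins, Piece.outs, runW_cons, run_p0_nil, run_moved_succ,
        run_moved_succ_nil, Option.bind_none, Option.bind_some]
    · simp only [LPiece.forget, Piece.ins, Piece.outs, runW_cons, run_p0_one, run_moved_succ,
        run_moved_succ_nil, Option.bind_none, Option.bind_some, Option.map_none]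
    · simp only [LPiece.forget, Piece.ins, Piece.outs, runW_cons, runW_nil, run_p0, run_moved_succ,
        Nat.add_sub_cancel, Option.bind_some]
      cases (Q.moved j).run S d <;> simp [run_p0]
  | neg i =>
    simp only [LPiece.forget, Piece.index] at hP
    subst hP
    obtain ⟨j, rfl⟩ : ∃ k, j = k + 2 := ⟨j - 2, by simp [LPiece.forget, Piece.ins] at h; omega⟩
    rcases d with _ | ⟨x, _ | ⟨y, d⟩⟩
    · simp only [LPiece.forget, Piece.ins, Piece.outs, runW_cons, run_n0_nil, run_moved_succ,
        run_moved_succ_nil, Option.bind_none, Option.bind_some]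
    · simp only [LPiece.forget, Piece.ins, Piece.outs, runW_cons, run_n0_one, run_moved_succ,
        run_moved_succ_nil, Option.bind_none, Option.bind_some, Option.map_none]
    · simp only [LPiece.forget, Piece.ins, Piece.outs, runW_cons, runW_nil, run_n0, run_moved_succ,
        Nat.add_sub_cancel, Option.bind_some]
      cases (Q.moved j).run S d <;> simp [run_n0]

theorem evW_pair (P Q : LPiece X) (d e : List X) (h : P.run S d = some e) :
    evW S [P, Q] d = P.ev d ++ Q.ev e := by
  simp only [evW, h]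
  cases Q.run S e <;> simp

theorem exch_ev (P Q : LPiece X) (j : ℕ) (hP : P.forget.index = 0) (h : P.forget.ins ≤ j)
    (d e : List X) (he : runW S [Q.moved j, P] d = some e) (ψ : X → X → ℤ) :
    sumE ψ (evW S [P, Q.moved (j + P.forget.outs - P.forget.ins)] d) =
      sumE ψ (evW S [Q.moved j, P] d) := by
  cases P with
  | birth i x =>
    simp only [LPiece.forget, Piece.index] at hP
    subst hP
    simp only [runW_cons, Option.bind_eq_some_iff] at he
    obtain ⟨f, hf, he⟩ := he
    rw [evW_pair S _ _ d _ (run_b0 S x d), evW_pair S _ _ d _ hf]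
    simp only [LPiece.forget, Piece.ins, Piece.outs, Nat.sub_zero, ev_moved_succ, sumE_append]
    simp [LPiece.ev]
  | death i =>
    simp only [LPiece.forget, Piece.index] at hP
    subst hP
    obtain ⟨j, rfl⟩ : ∃ k, j = k + 2 := ⟨j - 2, by simp [LPiece.forget, Piece.ins] at h; omega⟩
    simp only [runW_cons, runW_nil, Option.bind_eq_some_iff] at he
    obtain ⟨f, hf, g, hg, -⟩ := he
    rcases d with _ | ⟨x, _ | ⟨y, d⟩⟩
    · simp [run_moved_succ_nil] at hf
    · simp [run_moved_succ_nil, run_moved_succ] at hf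
    · simp only [run_moved_succ, Option.map_eq_some_iff] at hf
      obtain ⟨f1, ⟨f2, hf, rfl⟩, rfl⟩ := hf
      rw [run_d0] at hg
      split_ifs at hg with hxy
      rw [evW_pair S _ _ (x :: y :: d) d (by rw [run_d0, if_pos hxy]),
        evW_pair S _ _ (x :: y :: d) (x :: y :: f2) (by simp [run_moved_succ, hf])]
      simp only [LPiece.forget, Piece.ins, Piece.outs, Nat.add_zero, Nat.add_sub_cancel,
        ev_moved_succ, sumE_append]
      simp [LPiece.ev]
  | pos i =>
    simp only [LPiece.forget, Piece.index] at hP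
    subst hP
    obtain ⟨j, rfl⟩ : ∃ k, j = k + 2 := ⟨j - 2, by simp [LPiece.forget, Piece.ins] at h; omega⟩
    simp only [runW_cons, runW_nil, Option.bind_eq_some_iff] at he
    obtain ⟨f, hf, g, hg, -⟩ := he
    rcases d with _ | ⟨x, _ | ⟨y, d⟩⟩
    · simp [run_moved_succ_nil] at hf
    · simp [run_moved_succ_nil, run_moved_succ] at hf
    · simp only [run_moved_succ, Option.map_eq_some_iff] at hf
      obtain ⟨f1, ⟨f2, hf, rfl⟩, rfl⟩ := hf
      rw [evW_pair S _ _ (x :: y :: d) _ (run_p0 S x y d),
        evW_pair S _ _ (x :: y :: d) (x :: y :: f2) (by simp [run_moved_succ, hf])]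
      simp only [LPiece.forget, Piece.ins, Piece.outs, Nat.add_sub_cancel,
        ev_moved_succ, sumE_append]
      simp [LPiece.ev]
      ring
  | neg i =>
    simp only [LPiece.forget, Piece.index] at hP
    subst hP
    obtain ⟨j, rfl⟩ : ∃ k, j = k + 2 := ⟨j - 2, by simp [LPiece.forget, Piece.ins] at h; omega⟩
    simp only [runW_cons, runW_nil, Option.bind_eq_some_iff] at he
    obtain ⟨f, hf, g, hg, -⟩ := he
    rcases d with _ | ⟨x, _ | ⟨y, d⟩⟩
    · simp [run_moved_succ_nil] at hf
    · simp [run_moved_succ_nil, run_moved_succ] at hf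
    · simp only [run_moved_succ, Option.map_eq_some_iff] at hf
      obtain ⟨f1, ⟨f2, hf, rfl⟩, rfl⟩ := hf
      rw [evW_pair S _ _ (x :: y :: d) _ (run_n0 S x y d),
        evW_pair S _ _ (x :: y :: d) (x :: y :: f2) (by simp [run_moved_succ, hf])]
      simp only [LPiece.forget, Piece.ins, Piece.outs, Nat.add_sub_cancel,
        ev_moved_succ, sumE_append]
      simp [LPiece.ev]
      ring

/-- One labelled piece is determined by the labels above and below. -/
theorem piece_unique (Q Q' : LPiece X) (hQ : Q'.forget = Q.forget) (d e : List X)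
    (he : Q.run S d = some e) (he' : Q'.run S d = some e) : Q = Q' := by
  cases Q with
  | birth i x =>
    simp only [LPiece.forget] at hQ
    obtain ⟨x', rfl⟩ := forget_eq_birth.1 hQ
    obtain ⟨a, d', e', ha, rfl, h', rfl⟩ := (at'_eq_some _ _ _ _).1 he
    simp only [kb, Option.some.injEq] at h'
    simp only [LPiece.run] at he'
    subst ha
    rw [at'_append] at he'
    simp only [kb, Option.map_some, Option.some.injEq, List.append_cancel_left_eq] at he'
    rw [← h'] at he'
    simp only [List.cons.injEq] at he'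
    rw [he'.1]
  | death i =>
    simp only [LPiece.forget] at hQ
    exact (forget_eq_death.1 hQ).symm
  | pos i =>
    simp only [LPiece.forget] at hQ
    exact (forget_eq_pos.1 hQ).symm
  | neg i =>
    simp only [LPiece.forget] at hQ
    exact (forget_eq_neg.1 hQ).symm

/-- Two labelled pieces at different places are determined by the labels above and below. -/
theorem exch_unique (P Q P' Q' : LPiece X) (j : ℕ) (hP : P.forget.index = 0)
    (h : P.forget.ins ≤ j) (hP' : P'.forget = P.forget)
    (hQ : (Q'.moved j).forget = (Q.moved j).forget)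
    (d e : List X) (he : runW S [P, Q.moved (j + P.forget.outs - P.forget.ins)] d = some e)
    (he' : runW S [P', Q'.moved (j + P.forget.outs - P.forget.ins)] d = some e) :
    P = P' ∧ Q.moved j = Q'.moved j := by
  simp only [runW_cons, runW_nil, Option.bind_eq_some_iff, Option.some.injEq] at he he'
  obtain ⟨f, hf, g, hg, rfl⟩ := he
  obtain ⟨f', hf', g', hg', rfl⟩ := he'
  have hPP : P = P' := by
    cases P with
    | birth i x =>
      simp only [LPiece.forget, Piece.index] at hP hP'
      subst hP
      obtain ⟨x', rfl⟩ := forget_eq_birth.1 hP'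
      simp only [run_b0, Option.some.injEq] at hf hf'
      subst hf hf'
      simp only [LPiece.forget, Piece.ins, Piece.outs, Nat.sub_zero, run_moved_succ,
        Option.map_eq_some_iff] at hg hg'
      obtain ⟨_, ⟨a, ha, rfl⟩, rfl⟩ := hg
      obtain ⟨_, ⟨a', ha', rfl⟩, h9⟩ := hg'
      simp only [List.cons.injEq] at h9
      rw [h9.1]
    | death i => exact (forget_eq_death.1 hP').symm
    | pos i => exact (forget_eq_pos.1 hP').symm
    | neg i => exact (forget_eq_neg.1 hP').symm
  subst hPP
  refine ⟨rfl, ?_⟩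
  rw [hf] at hf'
  simp only [Option.some.injEq] at hf'
  subst hf'
  have h1 : (Q'.moved (j + P.forget.outs - P.forget.ins)).forget =
      (Q.moved (j + P.forget.outs - P.forget.ins)).forget := by
    rw [forget_lmoved, forget_lmoved] at *
    have := congrArg (Piece.moved (j + P.forget.outs - P.forget.ins)) hQ
    simpa only [moved_moved] using this
  have h2 := piece_unique S _ _ h1 f _ hg hg'
  have := congrArg (LPiece.moved j) h2
  simpa only [lmoved_lmoved] using this

/-- Base moves in one direction. -/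
theorem base_lift {l r : Word} (h : Base l r) (L : LWord X) (d e : List X)
    (hL : L.map LPiece.forget = l) (hr : runW S L d = some e) (hw : (width r d.length).isSome) :
    ∃ R : LWord X, R.map LPiece.forget = r ∧ runW S R d = some e ∧
      ∀ ψ, Good S ψ → sumE ψ (evW S R d) = sumE ψ (evW S L d) := by
  cases h
  case exchange p q hp h =>
    simp only [List.map_eq_cons_iff, List.map_eq_nil_iff] at hL
    obtain ⟨P, _, rfl, rfl, Q, _, rfl, hQ, rfl⟩ := hL
    have hQ' := moved_of_forget hQ
    have hf : (Q.moved q.index).forget = q := by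
      rw [forget_lmoved, hQ, moved_moved, moved_index]
    have key := exch_run S P Q q.index hp h d
    rw [← hQ'] at key
    have hr2 := hr
    rw [key] at hr2
    refine ⟨[Q.moved q.index, P], by simp [hf], hr2, ?_⟩
    intro ψ _
    have := exch_ev S P Q q.index hp h d e hr2 ψ
    rw [← hQ'] at this
    exact this.symm
  case zigzag₁ =>
    simp only [List.map_eq_cons_iff, List.map_eq_nil_iff, forget_eq_birth, forget_eq_death] at hL
    obtain ⟨_, _, rfl, ⟨x, rfl⟩, _, _, rfl, rfl, rfl⟩ := hL
    rcases d with _ | ⟨z, d⟩ <;> simp [LPiece.run, kb, kd, at', S.bar_bar, Option.bind_eq_some_iff, and_assoc] at hr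
    obtain ⟨rfl, rfl⟩ := hr
    exact ⟨[], rfl, rfl, by simp [evW, LPiece.run, LPiece.ev, kb, kd, at', S.bar_bar]⟩
  case zigzag₂ =>
    simp only [List.map_eq_cons_iff, List.map_eq_nil_iff, forget_eq_birth, forget_eq_death] at hL
    obtain ⟨_, _, rfl, ⟨x, rfl⟩, _, _, rfl, rfl, rfl⟩ := hL
    rcases d with _ | ⟨z, d⟩ <;> simp [LPiece.run, kb, kd, at', S.bar_bar, Option.bind_eq_some_iff, and_assoc] at hr
    obtain ⟨rfl, rfl⟩ := hr
    exact ⟨[], rfl, by simp [S.bar_bar], by simp [evW, LPiece.run, LPiece.ev, kb, kd, at', S.bar_bar]⟩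
  case slideBirth₁ =>
    simp only [List.map_eq_cons_iff, List.map_eq_nil_iff, forget_eq_birth, forget_eq_pos] at hL
    obtain ⟨_, _, rfl, ⟨x, rfl⟩, _, _, rfl, rfl, rfl⟩ := hL
    rcases d with _ | ⟨z, d⟩ <;> simp [LPiece.run, kb, kp, at', S.bar_bar, Option.bind_eq_some_iff, and_assoc] at hr
    subst hr
    refine ⟨[.birth 1 (S.act z x), .neg 0], rfl, ?_, ?_⟩
    · simp [LPiece.run, kb, kn, at', S.act_act, S.act_bar]
    · intro ψ hψ
      simp [evW, LPiece.run, LPiece.ev, kb, kp, kn, at', hψ.act_right, hψ.bar_right]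
  case slideBirth₂ =>
    simp only [List.map_eq_cons_iff, List.map_eq_nil_iff, forget_eq_birth, forget_eq_neg] at hL
    obtain ⟨_, _, rfl, ⟨x, rfl⟩, _, _, rfl, rfl, rfl⟩ := hL
    rcases d with _ | ⟨z, d⟩ <;> simp [LPiece.run, kb, kn, at', S.bar_bar, Option.bind_eq_some_iff, and_assoc] at hr
    subst hr
    refine ⟨[.birth 1 x, .pos 0], rfl, ?_, ?_⟩
    · simp [LPiece.run, kb, kp, at', S.act_act, S.act_bar, S.bar_act]
    · intro ψ hψ
      simp [evW, LPiece.run, LPiece.ev, kb, kp, kn, at', hψ.act_right, hψ.bar_right, hψ.bar_left]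
  case slideDeath₁ =>
    simp only [List.map_eq_cons_iff, List.map_eq_nil_iff, forget_eq_pos, forget_eq_death] at hL
    obtain ⟨_, _, rfl, rfl, _, _, rfl, rfl, rfl⟩ := hL
    rcases d with _ | ⟨x, _ | ⟨y, _ | ⟨z, d⟩⟩⟩ <;> simp [LPiece.run, kd, kp, at', S.bar_bar, Option.bind_eq_some_iff, and_assoc] at hr
    obtain ⟨h1, rfl⟩ := hr
    have hz : z = S.bar x := h1
    subst hz
    refine ⟨[.neg 0, .death 1], rfl, ?_, ?_⟩
    · simp [LPiece.run, kd, kn, at', S.act_act, S.act_bar, S.bar_act, S.bar_bar]
    · intro ψ hψ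
      simp [evW, LPiece.run, LPiece.ev, kd, kp, kn, at', hψ.act_right, hψ.bar_right, hψ.bar_left,
        S.bar_bar]
  case slideDeath₂ =>
    simp only [List.map_eq_cons_iff, List.map_eq_nil_iff, forget_eq_neg, forget_eq_death] at hL
    obtain ⟨_, _, rfl, rfl, _, _, rfl, rfl, rfl⟩ := hL
    rcases d with _ | ⟨x, _ | ⟨y, _ | ⟨z, d⟩⟩⟩ <;> simp [LPiece.run, kd, kn, at', S.bar_bar, Option.bind_eq_some_iff, and_assoc] at hr
    obtain ⟨h1, rfl⟩ := hr
    have hz : z = S.bar (S.act y x) := by rw [← S.act_bar, ← h1, S.act_act]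
    subst hz
    refine ⟨[.pos 0, .death 1], rfl, ?_, ?_⟩
    · simp [LPiece.run, kd, kp, at', S.act_act, S.act_bar, S.bar_act, S.bar_bar]
    · intro ψ hψ
      simp [evW, LPiece.run, LPiece.ev, kd, kp, kn, at', hψ.act_right, hψ.bar_right, hψ.bar_left,
        S.bar_bar, S.act_bar, S.act_act]
  case second₁ =>
    simp only [List.map_eq_cons_iff, List.map_eq_nil_iff, forget_eq_neg, forget_eq_pos] at hL
    obtain ⟨_, _, rfl, rfl, _, _, rfl, rfl, rfl⟩ := hL
    rcases d with _ | ⟨x, _ | ⟨y, d⟩⟩ <;> simp [LPiece.run, kp, kn, at', S.act_act, Option.bind_eq_some_iff, and_assoc] at hr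
    subst hr
    refine ⟨[], rfl, rfl, ?_⟩
    intro ψ hψ
    simp [evW, LPiece.run, LPiece.ev, kd, kp, kn, at', hψ.act_right, hψ.bar_right, hψ.bar_left]
  case second₂ =>
    simp only [List.map_eq_cons_iff, List.map_eq_nil_iff, forget_eq_neg, forget_eq_pos] at hL
    obtain ⟨_, _, rfl, rfl, _, _, rfl, rfl, rfl⟩ := hL
    rcases d with _ | ⟨x, _ | ⟨y, d⟩⟩ <;> simp [LPiece.run, kp, kn, at', S.act_act, Option.bind_eq_some_iff, and_assoc] at hr
    subst hr
    refine ⟨[], rfl, rfl, ?_⟩
    intro ψ hψ
    simp [evW, LPiece.run, LPiece.ev, kd, kp, kn, at', hψ.act_right, hψ.bar_right, hψ.bar_left]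
  case third =>
    simp only [List.map_eq_cons_iff, List.map_eq_nil_iff, forget_eq_neg, forget_eq_pos] at hL
    obtain ⟨_, _, rfl, rfl, _, _, rfl, rfl, _, _, rfl, rfl, rfl⟩ := hL
    rcases d with _ | ⟨x, _ | ⟨y, _ | ⟨z, d⟩⟩⟩ <;> simp [LPiece.run, kd, kp, at', S.bar_bar, Option.bind_eq_some_iff, and_assoc] at hr
    subst hr
    refine ⟨[.pos 1, .pos 0, .pos 1], rfl, ?_, ?_⟩
    · simp [LPiece.run, kp, at', S.act_dist]
    · intro ψ hψ
      simp [evW, LPiece.run, LPiece.ev, kd, kp, kn, at', hψ.act_right, hψ.act_left]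
      ring
  case birthPos =>
    simp only [List.map_eq_cons_iff, List.map_eq_nil_iff, forget_eq_birth, forget_eq_pos] at hL
    obtain ⟨_, _, rfl, ⟨x, rfl⟩, _, _, rfl, rfl, rfl⟩ := hL
    simp [LPiece.run, kb, kp, at', S.bar_act, S.act_self, Option.bind_eq_some_iff, and_assoc] at hr
    subst hr
    refine ⟨[.birth 0 (S.bar x)], rfl, ?_, ?_⟩
    · simp [LPiece.run, kb, at', S.bar_bar]
    · intro ψ hψ
      simp [evW, LPiece.run, LPiece.ev, kb, kp, kn, at', hψ.bar_left, hψ.self]
  case birthNeg =>
    simp only [List.map_eq_cons_iff, List.map_eq_nil_iff, forget_eq_birth, forget_eq_neg] at hL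
    obtain ⟨_, _, rfl, ⟨x, rfl⟩, _, _, rfl, rfl, rfl⟩ := hL
    simp [LPiece.run, kb, kn, at', S.act_bar, S.act_self, Option.bind_eq_some_iff, and_assoc] at hr
    subst hr
    refine ⟨[.birth 0 (S.bar x)], rfl, ?_, ?_⟩
    · simp [LPiece.run, kb, at', S.bar_bar]
    · intro ψ hψ
      simp [evW, LPiece.run, LPiece.ev, kb, kp, kn, at', hψ.bar_right, hψ.self]
  case deathPos =>
    simp only [List.map_eq_cons_iff, List.map_eq_nil_iff, forget_eq_pos, forget_eq_death] at hL
    obtain ⟨_, _, rfl, rfl, _, _, rfl, rfl, rfl⟩ := hL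
    rcases d with _ | ⟨x, _ | ⟨y, d⟩⟩ <;> simp [LPiece.run, kd, kp, at', S.bar_bar, Option.bind_eq_some_iff, and_assoc] at hr
    obtain ⟨h1, rfl⟩ := hr
    have hx : x = S.bar y := by
      have := congrArg (S.act y) h1
      rwa [S.act_act, S.act_bar, S.act_self] at this
    subst hx
    refine ⟨[.death 0], rfl, ?_, ?_⟩
    · simp [LPiece.run, kd, at', S.bar_bar]
    · intro ψ hψ
      simp [evW, LPiece.run, LPiece.ev, kb, kd, kp, kn, at', hψ.bar_right, hψ.self, S.bar_bar,
        S.act_bar, S.act_self]
  case deathNeg =>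
    simp only [List.map_eq_cons_iff, List.map_eq_nil_iff, forget_eq_neg, forget_eq_death] at hL
    obtain ⟨_, _, rfl, rfl, _, _, rfl, rfl, rfl⟩ := hL
    rcases d with _ | ⟨x, _ | ⟨y, d⟩⟩ <;> simp [LPiece.run, kd, kn, at', S.bar_bar, Option.bind_eq_some_iff, and_assoc] at hr
    obtain ⟨h1, rfl⟩ := hr
    have hx : y = S.bar x := by
      have := congrArg S.bar h1
      rw [S.bar_bar] at this
      have := congrArg (S.act x) this
      rw [S.act_act, S.act_bar, S.act_self] at this
      exact this.symm
    subst hx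
    refine ⟨[.death 0], rfl, ?_, ?_⟩
    · simp [LPiece.run, kd, at', S.bar_bar]
    · intro ψ hψ
      simp [evW, LPiece.run, LPiece.ev, kb, kd, kp, kn, at', hψ.bar_right, hψ.self, S.bar_bar,
        S.act_bar, S.act_self]

/-- Base moves in the other direction. -/
theorem base_lift' {l r : Word} (h : Base l r) (R : LWord X) (d e : List X)
    (hR : R.map LPiece.forget = r) (hr : runW S R d = some e) (hw : (width l d.length).isSome) :
    ∃ L : LWord X, L.map LPiece.forget = l ∧ runW S L d = some e ∧
      ∀ ψ, Good S ψ → sumE ψ (evW S R d) = sumE ψ (evW S L d) := by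
  cases h
  case exchange p q hp h =>
    simp only [List.map_eq_cons_iff, List.map_eq_nil_iff] at hR
    obtain ⟨Q, _, rfl, rfl, P, _, rfl, rfl, rfl⟩ := hR
    have hQ' : Q.moved Q.forget.index = Q := by cases Q <;> rfl
    have key := exch_run S P Q Q.forget.index hp h d
    rw [hQ', hr] at key
    refine ⟨[P, Q.moved (Q.forget.index + P.forget.outs - P.forget.ins)], ?_, key, ?_⟩
    · simp [forget_lmoved]
    intro ψ _
    have := exch_ev S P Q Q.forget.index hp h d e (by rw [hQ']; exact hr) ψ
    rw [hQ'] at this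
    exact this.symm
  case zigzag₁ =>
    simp only [List.map_eq_nil_iff] at hR
    subst hR
    simp only [runW_nil, Option.some.injEq] at hr
    subst hr
    rcases d with _ | ⟨z, d⟩
    · simp [width, Piece.width] at hw
    refine ⟨[.birth 0 z, .death 1], rfl, ?_, ?_⟩
    · simp [LPiece.run, kb, kd, at', S.bar_bar]
    · simp [evW, LPiece.run, LPiece.ev, kb, kd, at', S.bar_bar]
  case zigzag₂ =>
    simp only [List.map_eq_nil_iff] at hR
    subst hR
    simp only [runW_nil, Option.some.injEq] at hr
    subst hr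
    rcases d with _ | ⟨z, d⟩
    · simp [width, Piece.width] at hw
    refine ⟨[.birth 1 (S.bar z), .death 0], rfl, ?_, ?_⟩
    · simp [LPiece.run, kb, kd, at', S.bar_bar]
    · simp [evW, LPiece.run, LPiece.ev, kb, kd, at', S.bar_bar]
  case slideBirth₁ =>
    simp only [List.map_eq_cons_iff, List.map_eq_nil_iff, forget_eq_birth, forget_eq_neg] at hR
    obtain ⟨_, _, rfl, ⟨x, rfl⟩, _, _, rfl, rfl, rfl⟩ := hR
    rcases d with _ | ⟨z, d⟩ <;>
      simp [LPiece.run, kb, kn, at', S.bar_bar, Option.bind_eq_some_iff, and_assoc] at hr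
    subst hr
    refine ⟨[.birth 0 (S.act z x), .pos 1], rfl, ?_, ?_⟩
    · simp [LPiece.run, kb, kp, at', S.act_act, S.act_bar]
    · intro ψ hψ
      simp [evW, LPiece.run, LPiece.ev, kb, kp, kn, at', hψ.act_right, hψ.bar_right]
  case slideBirth₂ =>
    simp only [List.map_eq_cons_iff, List.map_eq_nil_iff, forget_eq_birth, forget_eq_pos] at hR
    obtain ⟨_, _, rfl, ⟨x, rfl⟩, _, _, rfl, rfl, rfl⟩ := hR
    rcases d with _ | ⟨z, d⟩ <;>
      simp [LPiece.run, kb, kp, at', S.bar_bar, Option.bind_eq_some_iff, and_assoc] at hr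
    subst hr
    refine ⟨[.birth 0 x, .neg 1], rfl, ?_, ?_⟩
    · simp [LPiece.run, kb, kn, at', S.act_act, S.act_bar, S.bar_act]
    · intro ψ hψ
      simp [evW, LPiece.run, LPiece.ev, kb, kp, kn, at', hψ.act_right, hψ.bar_right, hψ.bar_left]
  case slideDeath₁ =>
    simp only [List.map_eq_cons_iff, List.map_eq_nil_iff, forget_eq_neg, forget_eq_death] at hR
    obtain ⟨_, _, rfl, rfl, _, _, rfl, rfl, rfl⟩ := hR
    rcases d with _ | ⟨x, _ | ⟨y, _ | ⟨z, d⟩⟩⟩ <;>
      simp [LPiece.run, kd, kn, at', S.bar_bar, Option.bind_eq_some_iff, and_assoc] at hr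
    obtain ⟨h1, rfl⟩ := hr
    subst h1
    refine ⟨[.pos 1, .death 0], rfl, ?_, ?_⟩
    · simp [LPiece.run, kd, kp, at', S.act_act, S.act_bar, S.bar_act, S.bar_bar]
    · intro ψ hψ
      simp [evW, LPiece.run, LPiece.ev, kd, kp, kn, at', hψ.act_right, hψ.bar_right, hψ.bar_left,
        S.bar_bar]
  case slideDeath₂ =>
    simp only [List.map_eq_cons_iff, List.map_eq_nil_iff, forget_eq_pos, forget_eq_death] at hR
    obtain ⟨_, _, rfl, rfl, _, _, rfl, rfl, rfl⟩ := hR
    rcases d with _ | ⟨x, _ | ⟨y, _ | ⟨z, d⟩⟩⟩ <;>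
      simp [LPiece.run, kd, kp, at', S.bar_bar, Option.bind_eq_some_iff, and_assoc] at hr
    obtain ⟨h1, rfl⟩ := hr
    subst h1
    refine ⟨[.neg 1, .death 0], rfl, ?_, ?_⟩
    · simp [LPiece.run, kd, kn, at', S.act_act, S.act_bar, S.bar_act, S.bar_bar]
    · intro ψ hψ
      simp [evW, LPiece.run, LPiece.ev, kd, kp, kn, at', hψ.act_right, hψ.bar_right, hψ.bar_left,
        S.bar_bar, S.act_bar, S.act_act]
  case second₁ =>
    simp only [List.map_eq_nil_iff] at hR
    subst hR
    simp only [runW_nil, Option.some.injEq] at hr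
    subst hr
    rcases d with _ | ⟨x, _ | ⟨y, d⟩⟩
    · simp [width, Piece.width] at hw
    · simp [width, Piece.width] at hw
    refine ⟨[.pos 0, .neg 0], rfl, ?_, ?_⟩
    · simp [LPiece.run, kp, kn, at', S.act_act]
    · intro ψ hψ
      simp [evW, LPiece.run, LPiece.ev, kd, kp, kn, at', hψ.act_right, hψ.bar_right, hψ.bar_left]
  case second₂ =>
    simp only [List.map_eq_nil_iff] at hR
    subst hR
    simp only [runW_nil, Option.some.injEq] at hr
    subst hr
    rcases d with _ | ⟨x, _ | ⟨y, d⟩⟩
    · simp [width, Piece.width] at hw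
    · simp [width, Piece.width] at hw
    refine ⟨[.neg 0, .pos 0], rfl, ?_, ?_⟩
    · simp [LPiece.run, kp, kn, at', S.act_act]
    · intro ψ hψ
      simp [evW, LPiece.run, LPiece.ev, kd, kp, kn, at', hψ.act_right, hψ.bar_right, hψ.bar_left]
  case third =>
    simp only [List.map_eq_cons_iff, List.map_eq_nil_iff, forget_eq_neg, forget_eq_pos] at hR
    obtain ⟨_, _, rfl, rfl, _, _, rfl, rfl, _, _, rfl, rfl, rfl⟩ := hR
    rcases d with _ | ⟨x, _ | ⟨y, _ | ⟨z, d⟩⟩⟩ <;>
      simp [LPiece.run, kd, kp, at', S.bar_bar, Option.bind_eq_some_iff, and_assoc] at hr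
    subst hr
    refine ⟨[.pos 0, .pos 1, .pos 0], rfl, ?_, ?_⟩
    · simp [LPiece.run, kp, at', S.act_dist]
    · intro ψ hψ
      simp [evW, LPiece.run, LPiece.ev, kd, kp, kn, at', hψ.act_right, hψ.act_left]
      ring
  case birthPos =>
    simp only [List.map_eq_cons_iff, List.map_eq_nil_iff, forget_eq_birth, forget_eq_pos] at hR
    obtain ⟨_, _, rfl, ⟨x, rfl⟩, rfl⟩ := hR
    simp [LPiece.run, kb, kp, at', S.bar_act, S.act_self] at hr
    subst hr
    refine ⟨[.birth 0 (S.bar x), .pos 0], rfl, ?_, ?_⟩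
    · simp [LPiece.run, kb, kp, at', S.bar_bar, S.act_bar, S.act_self]
    · intro ψ hψ
      simp [evW, LPiece.run, LPiece.ev, kb, kp, kn, at', hψ.bar_left, hψ.bar_right, hψ.self]
  case birthNeg =>
    simp only [List.map_eq_cons_iff, List.map_eq_nil_iff, forget_eq_birth, forget_eq_neg] at hR
    obtain ⟨_, _, rfl, ⟨x, rfl⟩, rfl⟩ := hR
    simp [LPiece.run, kb, kn, at', S.act_bar, S.act_self] at hr
    subst hr
    refine ⟨[.birth 0 (S.bar x), .neg 0], rfl, ?_, ?_⟩
    · simp [LPiece.run, kb, kn, at', S.bar_bar, S.bar_act, S.act_self]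
    · intro ψ hψ
      simp [evW, LPiece.run, LPiece.ev, kb, kp, kn, at', hψ.bar_right, hψ.bar_left, hψ.self]
  case deathPos =>
    simp only [List.map_eq_cons_iff, List.map_eq_nil_iff, forget_eq_pos, forget_eq_death] at hR
    obtain ⟨_, _, rfl, rfl, rfl⟩ := hR
    rcases d with _ | ⟨x, _ | ⟨y, d⟩⟩ <;>
      simp [LPiece.run, kd, kp, at', S.bar_bar, Option.bind_eq_some_iff, and_assoc] at hr
    obtain ⟨h1, rfl⟩ := hr
    subst h1
    refine ⟨[.pos 0, .death 0], rfl, ?_, ?_⟩
    · simp [LPiece.run, kd, kp, at', S.bar_bar, S.bar_act, S.act_self]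
    · intro ψ hψ
      simp [evW, LPiece.run, LPiece.ev, kb, kd, kp, kn, at', hψ.bar_left, hψ.bar_right, hψ.self,
        S.bar_bar, S.bar_act, S.act_self]
  case deathNeg =>
    simp only [List.map_eq_cons_iff, List.map_eq_nil_iff, forget_eq_neg, forget_eq_death] at hR
    obtain ⟨_, _, rfl, rfl, rfl⟩ := hR
    rcases d with _ | ⟨x, _ | ⟨y, d⟩⟩ <;>
      simp [LPiece.run, kd, kn, at', S.bar_bar, Option.bind_eq_some_iff, and_assoc] at hr
    obtain ⟨h1, rfl⟩ := hr
    subst h1
    refine ⟨[.neg 0, .death 0], rfl, ?_, ?_⟩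
    · simp [LPiece.run, kd, kn, at', S.bar_bar, S.act_bar, S.act_self]
    · intro ψ hψ
      simp [evW, LPiece.run, LPiece.ev, kb, kd, kp, kn, at', hψ.bar_left, hψ.bar_right, hψ.self,
        S.bar_bar, S.act_bar, S.act_self]

/-- The labels are determined by the labels above and below. -/
theorem base_unique {l r : Word} (h : Base l r ∨ Base r l) (L L' : LWord X) (d e : List X)
    (hL : L.map LPiece.forget = l) (hL' : L'.map LPiece.forget = l)
    (hr : runW S L d = some e) (hr' : runW S L' d = some e) : L = L' := by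
  rcases h with h | h
  · cases h
    case exchange p q hp h =>
      simp only [List.map_eq_cons_iff, List.map_eq_nil_iff] at hL hL'
      obtain ⟨P, _, rfl, rfl, Q, _, rfl, hQ, rfl⟩ := hL
      obtain ⟨P', _, rfl, hP', Q', _, rfl, hQ', rfl⟩ := hL'
      have h1 := moved_of_forget hQ
      have h1' := moved_of_forget hQ'
      have h2 : (Q'.moved q.index).forget = (Q.moved q.index).forget := by
        rw [forget_lmoved, forget_lmoved, hQ, hQ']
      have h3 := exch_unique S P Q P' Q' q.index hp h hP' h2 d e (by rw [← h1]; exact hr)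
        (by rw [← h1']; exact hr')
      rw [h3.1, h1, h1']
      have h4 := congrArg (LPiece.moved (q.index + P.forget.outs - P.forget.ins)) h3.2
      rw [lmoved_lmoved, lmoved_lmoved] at h4
      rw [h3.1] at h4 ⊢
      rw [h4]
    case zigzag₁ =>
      simp only [List.map_eq_cons_iff, List.map_eq_nil_iff, forget_eq_birth, forget_eq_neg,
        forget_eq_pos, forget_eq_death] at hL hL'
      obtain ⟨_, _, rfl, ⟨x, rfl⟩, _, _, rfl, rfl, rfl⟩ := hL
      obtain ⟨_, _, rfl, ⟨x', rfl⟩, _, _, rfl, rfl, rfl⟩ := hL'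
      have key : x = x' := by
        rcases d with _ | ⟨z, d⟩ <;>
          simp [LPiece.run, kb, kd, kp, kn, at', S.bar_bar, S.act_bar, S.bar_act, S.act_self,
            Option.bind_eq_some_iff, and_assoc] at hr hr' <;>
          (try subst hr) <;> (try simp at hr') <;> first
          | done
          | (simp_all; done)
          | (have h9 := congrArg S.bar hr'.2; simp only [S.bar_bar] at h9; exact h9.symm)
      rw [key]
    case zigzag₂ =>
      simp only [List.map_eq_cons_iff, List.map_eq_nil_iff, forget_eq_birth, forget_eq_neg,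
        forget_eq_pos, forget_eq_death] at hL hL'
      obtain ⟨_, _, rfl, ⟨x, rfl⟩, _, _, rfl, rfl, rfl⟩ := hL
      obtain ⟨_, _, rfl, ⟨x', rfl⟩, _, _, rfl, rfl, rfl⟩ := hL'
      have key : x = x' := by
        rcases d with _ | ⟨z, d⟩ <;>
          simp [LPiece.run, kb, kd, kp, kn, at', S.bar_bar, S.act_bar, S.bar_act, S.act_self,
            Option.bind_eq_some_iff, and_assoc] at hr hr' <;>
          (try subst hr) <;> (try simp at hr') <;> first
          | done
          | (simp_all; done)
          | (have h9 := congrArg S.bar hr'.2; simp only [S.bar_bar] at h9; exact h9.symm)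
      rw [key]
    case slideBirth₁ =>
      simp only [List.map_eq_cons_iff, List.map_eq_nil_iff, forget_eq_birth, forget_eq_neg,
        forget_eq_pos, forget_eq_death] at hL hL'
      obtain ⟨_, _, rfl, ⟨x, rfl⟩, _, _, rfl, rfl, rfl⟩ := hL
      obtain ⟨_, _, rfl, ⟨x', rfl⟩, _, _, rfl, rfl, rfl⟩ := hL'
      have key : x = x' := by
        rcases d with _ | ⟨z, d⟩ <;>
          simp [LPiece.run, kb, kd, kp, kn, at', S.bar_bar, S.act_bar, S.bar_act, S.act_self,
            Option.bind_eq_some_iff, and_assoc] at hr hr' <;>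
          (try subst hr) <;> (try simp at hr') <;> first
          | done
          | (simp_all; done)
          | (have h9 := congrArg S.bar hr'.2; simp only [S.bar_bar] at h9; exact h9.symm)
      rw [key]
    case slideBirth₂ =>
      simp only [List.map_eq_cons_iff, List.map_eq_nil_iff, forget_eq_birth, forget_eq_neg,
        forget_eq_pos, forget_eq_death] at hL hL'
      obtain ⟨_, _, rfl, ⟨x, rfl⟩, _, _, rfl, rfl, rfl⟩ := hL
      obtain ⟨_, _, rfl, ⟨x', rfl⟩, _, _, rfl, rfl, rfl⟩ := hL'
      have key : x = x' := by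
        rcases d with _ | ⟨z, d⟩ <;>
          simp [LPiece.run, kb, kd, kp, kn, at', S.bar_bar, S.act_bar, S.bar_act, S.act_self,
            Option.bind_eq_some_iff, and_assoc] at hr hr' <;>
          (try subst hr) <;> (try simp at hr') <;> first
          | done
          | (simp_all; done)
          | (have h9 := congrArg S.bar hr'.2; simp only [S.bar_bar] at h9; exact h9.symm)
      rw [key]
    case slideDeath₁ =>
      simp only [List.map_eq_cons_iff, List.map_eq_nil_iff, forget_eq_birth, forget_eq_neg,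
        forget_eq_pos, forget_eq_death] at hL hL'
      obtain ⟨_, _, rfl, rfl, _, _, rfl, rfl, rfl⟩ := hL
      obtain ⟨_, _, rfl, rfl, _, _, rfl, rfl, rfl⟩ := hL'
      rfl
    case slideDeath₂ =>
      simp only [List.map_eq_cons_iff, List.map_eq_nil_iff, forget_eq_birth, forget_eq_neg,
        forget_eq_pos, forget_eq_death] at hL hL'
      obtain ⟨_, _, rfl, rfl, _, _, rfl, rfl, rfl⟩ := hL
      obtain ⟨_, _, rfl, rfl, _, _, rfl, rfl, rfl⟩ := hL'
      rfl
    case second₁ =>
      simp only [List.map_eq_cons_iff, List.map_eq_nil_iff, forget_eq_birth, forget_eq_neg,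
        forget_eq_pos, forget_eq_death] at hL hL'
      obtain ⟨_, _, rfl, rfl, _, _, rfl, rfl, rfl⟩ := hL
      obtain ⟨_, _, rfl, rfl, _, _, rfl, rfl, rfl⟩ := hL'
      rfl
    case second₂ =>
      simp only [List.map_eq_cons_iff, List.map_eq_nil_iff, forget_eq_birth, forget_eq_neg,
        forget_eq_pos, forget_eq_death] at hL hL'
      obtain ⟨_, _, rfl, rfl, _, _, rfl, rfl, rfl⟩ := hL
      obtain ⟨_, _, rfl, rfl, _, _, rfl, rfl, rfl⟩ := hL'
      rfl
    case third =>
      simp only [List.map_eq_cons_iff, List.map_eq_nil_iff, forget_eq_birth, forget_eq_neg,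
        forget_eq_pos, forget_eq_death] at hL hL'
      obtain ⟨_, _, rfl, rfl, _, _, rfl, rfl, _, _, rfl, rfl, rfl⟩ := hL
      obtain ⟨_, _, rfl, rfl, _, _, rfl, rfl, _, _, rfl, rfl, rfl⟩ := hL'
      rfl
    case birthPos =>
      simp only [List.map_eq_cons_iff, List.map_eq_nil_iff, forget_eq_birth, forget_eq_neg,
        forget_eq_pos, forget_eq_death] at hL hL'
      obtain ⟨_, _, rfl, ⟨x, rfl⟩, _, _, rfl, rfl, rfl⟩ := hL
      obtain ⟨_, _, rfl, ⟨x', rfl⟩, _, _, rfl, rfl, rfl⟩ := hL'
      have key : x = x' := by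
        rcases d with _ | ⟨z, d⟩ <;>
          simp [LPiece.run, kb, kd, kp, kn, at', S.bar_bar, S.act_bar, S.bar_act, S.act_self,
            Option.bind_eq_some_iff, and_assoc] at hr hr' <;>
          (try subst hr) <;> (try simp at hr') <;> first
          | done
          | (simp_all; done)
          | (have h9 := congrArg S.bar hr'.2; simp only [S.bar_bar] at h9; exact h9.symm)
      rw [key]
    case birthNeg =>
      simp only [List.map_eq_cons_iff, List.map_eq_nil_iff, forget_eq_birth, forget_eq_neg,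
        forget_eq_pos, forget_eq_death] at hL hL'
      obtain ⟨_, _, rfl, ⟨x, rfl⟩, _, _, rfl, rfl, rfl⟩ := hL
      obtain ⟨_, _, rfl, ⟨x', rfl⟩, _, _, rfl, rfl, rfl⟩ := hL'
      have key : x = x' := by
        rcases d with _ | ⟨z, d⟩ <;>
          simp [LPiece.run, kb, kd, kp, kn, at', S.bar_bar, S.act_bar, S.bar_act, S.act_self,
            Option.bind_eq_some_iff, and_assoc] at hr hr' <;>
          (try subst hr) <;> (try simp at hr') <;> first
          | done
          | (simp_all; done)
          | (have h9 := congrArg S.bar hr'.2; simp only [S.bar_bar] at h9; exact h9.symm)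
      rw [key]
    case deathPos =>
      simp only [List.map_eq_cons_iff, List.map_eq_nil_iff, forget_eq_birth, forget_eq_neg,
        forget_eq_pos, forget_eq_death] at hL hL'
      obtain ⟨_, _, rfl, rfl, _, _, rfl, rfl, rfl⟩ := hL
      obtain ⟨_, _, rfl, rfl, _, _, rfl, rfl, rfl⟩ := hL'
      rfl
    case deathNeg =>
      simp only [List.map_eq_cons_iff, List.map_eq_nil_iff, forget_eq_birth, forget_eq_neg,
        forget_eq_pos, forget_eq_death] at hL hL'
      obtain ⟨_, _, rfl, rfl, _, _, rfl, rfl, rfl⟩ := hL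
      obtain ⟨_, _, rfl, rfl, _, _, rfl, rfl, rfl⟩ := hL'
      rfl
  · cases h
    case exchange p q hp h =>
      simp only [List.map_eq_cons_iff, List.map_eq_nil_iff] at hL hL'
      obtain ⟨Q, _, rfl, rfl, P, _, rfl, rfl, rfl⟩ := hL
      obtain ⟨Q', _, rfl, hQ', P', _, rfl, hP', rfl⟩ := hL'
      have h1 : Q.moved Q.forget.index = Q := by cases Q <;> rfl
      have h1' : Q'.moved Q.forget.index = Q' := by
        rw [← hQ']; cases Q' <;> rfl
      have k1 := exch_run S P Q Q.forget.index hp h d
      have k2 := exch_run S P' Q' Q.forget.index (by rw [hP']; exact hp) (by rw [hP']; exact h) d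
      rw [h1, hr] at k1
      rw [h1', hr', hP'] at k2
      have h3 := exch_unique S P Q P' Q' Q.forget.index hp h hP' (by rw [h1, h1', hQ']) d e k1 k2
      rw [h1, h1'] at h3
      rw [h3.1, h3.2]
    case zigzag₁ =>
      simp only [List.map_eq_cons_iff, List.map_eq_nil_iff, forget_eq_birth, forget_eq_neg,
        forget_eq_pos, forget_eq_death] at hL hL'
      subst hL hL'
      rfl
    case zigzag₂ =>
      simp only [List.map_eq_cons_iff, List.map_eq_nil_iff, forget_eq_birth, forget_eq_neg,
        forget_eq_pos, forget_eq_death] at hL hL'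
      subst hL hL'
      rfl
    case slideBirth₁ =>
      simp only [List.map_eq_cons_iff, List.map_eq_nil_iff, forget_eq_birth, forget_eq_neg,
        forget_eq_pos, forget_eq_death] at hL hL'
      obtain ⟨_, _, rfl, ⟨x, rfl⟩, _, _, rfl, rfl, rfl⟩ := hL
      obtain ⟨_, _, rfl, ⟨x', rfl⟩, _, _, rfl, rfl, rfl⟩ := hL'
      have key : x = x' := by
        rcases d with _ | ⟨z, d⟩ <;>
          simp [LPiece.run, kb, kd, kp, kn, at', S.bar_bar, S.act_bar, S.bar_act, S.act_self,
            Option.bind_eq_some_iff, and_assoc] at hr hr' <;>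
          (try subst hr) <;> (try simp at hr') <;> first
          | done
          | (simp_all; done)
          | (have h9 := congrArg S.bar hr'.2; simp only [S.bar_bar] at h9; exact h9.symm)
      rw [key]
    case slideBirth₂ =>
      simp only [List.map_eq_cons_iff, List.map_eq_nil_iff, forget_eq_birth, forget_eq_neg,
        forget_eq_pos, forget_eq_death] at hL hL'
      obtain ⟨_, _, rfl, ⟨x, rfl⟩, _, _, rfl, rfl, rfl⟩ := hL
      obtain ⟨_, _, rfl, ⟨x', rfl⟩, _, _, rfl, rfl, rfl⟩ := hL'
      have key : x = x' := by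
        rcases d with _ | ⟨z, d⟩ <;>
          simp [LPiece.run, kb, kd, kp, kn, at', S.bar_bar, S.act_bar, S.bar_act, S.act_self,
            Option.bind_eq_some_iff, and_assoc] at hr hr' <;>
          (try subst hr) <;> (try simp at hr') <;> first
          | done
          | (simp_all; done)
          | (have h9 := congrArg S.bar hr'.2; simp only [S.bar_bar] at h9; exact h9.symm)
      rw [key]
    case slideDeath₁ =>
      simp only [List.map_eq_cons_iff, List.map_eq_nil_iff, forget_eq_birth, forget_eq_neg,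
        forget_eq_pos, forget_eq_death] at hL hL'
      obtain ⟨_, _, rfl, rfl, _, _, rfl, rfl, rfl⟩ := hL
      obtain ⟨_, _, rfl, rfl, _, _, rfl, rfl, rfl⟩ := hL'
      rfl
    case slideDeath₂ =>
      simp only [List.map_eq_cons_iff, List.map_eq_nil_iff, forget_eq_birth, forget_eq_neg,
        forget_eq_pos, forget_eq_death] at hL hL'
      obtain ⟨_, _, rfl, rfl, _, _, rfl, rfl, rfl⟩ := hL
      obtain ⟨_, _, rfl, rfl, _, _, rfl, rfl, rfl⟩ := hL'
      rfl
    case second₁ =>
      simp only [List.map_eq_cons_iff, List.map_eq_nil_iff, forget_eq_birth, forget_eq_neg,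
        forget_eq_pos, forget_eq_death] at hL hL'
      subst hL hL'
      rfl
    case second₂ =>
      simp only [List.map_eq_cons_iff, List.map_eq_nil_iff, forget_eq_birth, forget_eq_neg,
        forget_eq_pos, forget_eq_death] at hL hL'
      subst hL hL'
      rfl
    case third =>
      simp only [List.map_eq_cons_iff, List.map_eq_nil_iff, forget_eq_birth, forget_eq_neg,
        forget_eq_pos, forget_eq_death] at hL hL'
      obtain ⟨_, _, rfl, rfl, _, _, rfl, rfl, _, _, rfl, rfl, rfl⟩ := hL
      obtain ⟨_, _, rfl, rfl, _, _, rfl, rfl, _, _, rfl, rfl, rfl⟩ := hL'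
      rfl
    case birthPos =>
      simp only [List.map_eq_cons_iff, List.map_eq_nil_iff, forget_eq_birth, forget_eq_neg,
        forget_eq_pos, forget_eq_death] at hL hL'
      obtain ⟨_, _, rfl, ⟨x, rfl⟩, rfl⟩ := hL
      obtain ⟨_, _, rfl, ⟨x', rfl⟩, rfl⟩ := hL'
      have key : x = x' := by
        rcases d with _ | ⟨z, d⟩ <;>
          simp [LPiece.run, kb, kd, kp, kn, at', S.bar_bar, S.act_bar, S.bar_act, S.act_self,
            Option.bind_eq_some_iff, and_assoc] at hr hr' <;>
          (try subst hr) <;> (try simp at hr') <;> first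
          | done
          | (simp_all; done)
          | (have h9 := congrArg S.bar hr'.2; simp only [S.bar_bar] at h9; exact h9.symm)
      rw [key]
    case birthNeg =>
      simp only [List.map_eq_cons_iff, List.map_eq_nil_iff, forget_eq_birth, forget_eq_neg,
        forget_eq_pos, forget_eq_death] at hL hL'
      obtain ⟨_, _, rfl, ⟨x, rfl⟩, rfl⟩ := hL
      obtain ⟨_, _, rfl, ⟨x', rfl⟩, rfl⟩ := hL'
      have key : x = x' := by
        rcases d with _ | ⟨z, d⟩ <;>
          simp [LPiece.run, kb, kd, kp, kn, at', S.bar_bar, S.act_bar, S.bar_act, S.act_self,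
            Option.bind_eq_some_iff, and_assoc] at hr hr' <;>
          (try subst hr) <;> (try simp at hr') <;> first
          | done
          | (simp_all; done)
          | (have h9 := congrArg S.bar hr'.2; simp only [S.bar_bar] at h9; exact h9.symm)
      rw [key]
    case deathPos =>
      simp only [List.map_eq_cons_iff, List.map_eq_nil_iff, forget_eq_birth, forget_eq_neg,
        forget_eq_pos, forget_eq_death] at hL hL'
      obtain ⟨_, _, rfl, rfl, rfl⟩ := hL
      obtain ⟨_, _, rfl, rfl, rfl⟩ := hL'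
      rfl
    case deathNeg =>
      simp only [List.map_eq_cons_iff, List.map_eq_nil_iff, forget_eq_birth, forget_eq_neg,
        forget_eq_pos, forget_eq_death] at hL hL'
      obtain ⟨_, _, rfl, rfl, rfl⟩ := hL
      obtain ⟨_, _, rfl, rfl, rfl⟩ := hL'
      rfl

end

end Pool.Agent.Helper907.AA
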