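import Pool.Agent.Helper907.AA.Trans

/-! # Labellings defined from the labels to the left -/

set_option autoImplicit false
set_option linter.unusedSectionVars false
set_option linter.unusedSimpArgs false
set_option linter.unusedVariables false

namespace Pool.Agent.Helper907.AA

section

variable {X Y σ : Type} (S : Kei X) (T : Kei Y) [DecidableEq X] [DecidableEq Y]
  (τ : σ → X → σ) (val : σ → X → Y)

/-- New labels: `s` is the state reached after reading the labels to the left. -/
def dec : σ → List X → List Y
  | _, [] => []
  | s, x :: d => val s x :: dec (τ s x) d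

/-- The state after reading a list. -/
def scan (s : σ) (l : List X) : σ := l.foldl τ s

/-- New label of a piece. -/
def decP (s : σ) : LPiece X → List X → LPiece Y
  | .birth i x, d => .birth i (val (scan τ s (d.take i)) x)
  | .death i, _ => .death i
  | .pos i, _ => .pos i
  | .neg i, _ => .neg i

/-- New labels of a diagram. -/
def decW (s : σ) : LWord X → List X → LWord Y
  | [], _ => []
  | p :: W, d => decP τ val s p d :: (match p.run S d with
    | some e => decW s W e
    | none => [])

/-- The conditions under which the new labels are allowed. -/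
structure Scan (A : Bool × X × X → Prop) : Prop where
  bar : ∀ s x, val (τ s x) (S.bar x) = T.bar (val s x)
  barτ : ∀ s x, τ (τ s x) (S.bar x) = s
  posO : ∀ s x y, A (true, y, x) → val s y = val (τ s x) y
  posU : ∀ s x y, A (true, y, x) → val (τ s y) (S.act y x) = T.act (val (τ s x) y) (val s x)
  posτ : ∀ s x y, A (true, y, x) → τ (τ s y) (S.act y x) = τ (τ s x) y
  negU : ∀ s x y, A (false, x, y) → val s (S.act x y) = T.act (val s x) (val (τ s x) y)
  negO : ∀ s x y, A (false, x, y) → val (τ s (S.act x y)) x = val s x
  negτ : ∀ s x y, A (false, x, y) → τ (τ s (S.act x y)) x = τ (τ s x) y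

theorem dec_length (s : σ) (d : List X) : (dec τ val s d).length = d.length := by
  induction d generalizing s with
  | nil => rfl
  | cons x d ih => simp [dec, ih]

theorem dec_append (s : σ) (a d : List X) :
    dec τ val s (a ++ d) = dec τ val s a ++ dec τ val (scan τ s a) d := by
  induction a generalizing s with
  | nil => rfl
  | cons x a ih => simp [dec, ih, scan]

theorem dec_run {A : Bool × X × X → Prop} (h : Scan S T τ val A) (s : σ) (p : LPiece X)
    (d e : List X) (hr : p.run S d = some e) (hA : ∀ t ∈ p.ev d, A t) :
    (decP τ val s p d).run T (dec τ val s d) = some (dec τ val s e) := by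
  cases p with
  | birth i x =>
    obtain ⟨a, d', e', ha, rfl, h', rfl⟩ := (at'_eq_some _ _ _ _).1 hr
    simp only [kb, Option.some.injEq] at h'
    subst h' ha
    simp only [decP, LPiece.run, List.take_left, dec_append]
    rw [← dec_length τ val s a, at'_append]
    simp [kb, dec, h.bar, h.barτ]
  | death i =>
    obtain ⟨a, d', e', ha, rfl, h', rfl⟩ := (at'_eq_some _ _ _ _).1 hr
    rcases d' with _ | ⟨x, _ | ⟨y, d'⟩⟩ <;> simp [kd] at h'
    obtain ⟨rfl, rfl⟩ := h'
    subst ha
    simp only [decP, LPiece.run, dec_append]
    rw [← dec_length τ val s a, at'_append]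
    simp [kd, dec, h.bar, h.barτ]
  | pos i =>
    obtain ⟨a, d', e', ha, rfl, h', rfl⟩ := (at'_eq_some _ _ _ _).1 hr
    rcases d' with _ | ⟨x, _ | ⟨y, d'⟩⟩ <;> simp [kp] at h'
    subst h' ha
    have hA' : A (true, y, x) := hA _ (by simp [LPiece.ev])
    simp only [decP, LPiece.run, dec_append]
    rw [← dec_length τ val s a, at'_append]
    simp [kp, dec, h.posU _ _ _ hA', h.posτ _ _ _ hA', ← h.posO _ _ _ hA']
  | neg i =>
    obtain ⟨a, d', e', ha, rfl, h', rfl⟩ := (at'_eq_some _ _ _ _).1 hr
    rcases d' with _ | ⟨x, _ | ⟨y, d'⟩⟩ <;> simp [kn] at h'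
    subst h' ha
    have hA' : A (false, x, y) := hA _ (by simp [LPiece.ev])
    simp only [decP, LPiece.run, dec_append]
    rw [← dec_length τ val s a, at'_append]
    simp [kn, dec, h.negU _ _ _ hA', h.negτ _ _ _ hA', h.negO _ _ _ hA']

theorem dec_runW {A : Bool × X × X → Prop} (h : Scan S T τ val A) (s : σ) (W : LWord X)
    (d e : List X) (hr : runW S W d = some e) (hA : ∀ t ∈ evW S W d, A t) :
    runW T (decW S τ val s W d) (dec τ val s d) = some (dec τ val s e) := by
  induction W generalizing d with
  | nil => simp only [runW_nil, Option.some.injEq] at hr; subst hr; rfl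
  | cons p W ih =>
    simp only [runW_cons, Option.bind_eq_some_iff] at hr
    obtain ⟨f, hf, hr⟩ := hr
    simp only [evW, hf] at hA
    simp only [decW, hf, runW_cons]
    rw [dec_run S T τ val h s p d f hf (fun t ht => hA t (by simp [ht]))]
    simp only [Option.bind_some]
    exact ih f hr (fun t ht => hA t (by simp [ht]))

theorem dec_proj (π : Y → X) (hπ : ∀ s x, π (val s x) = x) (s : σ) (W : LWord X)
    (d e : List X) (hr : runW S W d = some e) :
    (decW S τ val s W d).map (LPiece.map π) = W := by
  induction W generalizing d with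
  | nil => rfl
  | cons p W ih =>
    simp only [runW_cons, Option.bind_eq_some_iff] at hr
    obtain ⟨f, hf, hr⟩ := hr
    simp only [decW, hf, List.map_cons, ih f hr]
    cases p <;> simp [decP, LPiece.map, hπ]

/-- All intermediate label lists of a diagram satisfy `P`. -/
def AllSt (P : List X → Prop) : LWord X → List X → Prop
  | [], d => P d
  | p :: W, d => P d ∧ ∀ e, p.run S d = some e → AllSt P W e

theorem states_of_eq {A : Bool × X × X → Prop} (h : Scan S T τ val A) (ι : X → Y)
    (hι : Hom S T ι) (s : σ) (W : LWord X) (d e : List X) (hr : runW S W d = some e)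
    (hA : ∀ t ∈ evW S W d, A t) (hW : decW S τ val s W d = W.map (LPiece.map ι))
    (hd : dec τ val s d = d.map ι) : AllSt S (fun d => dec τ val s d = d.map ι) W d := by
  induction W generalizing d with
  | nil => exact hd
  | cons p W ih =>
    simp only [runW_cons, Option.bind_eq_some_iff] at hr
    obtain ⟨f, hf, hr⟩ := hr
    simp only [evW, hf] at hA
    simp only [decW, hf, List.map_cons, List.cons.injEq] at hW
    refine ⟨hd, fun e' he' => ?_⟩
    rw [hf] at he'
    obtain rfl := Option.some.inj he'
    refine ih f hr (fun t ht => hA t (by simp [ht])) hW.2 ?_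
    have h1 := dec_run S T τ val h s p d f hf (fun t ht => hA t (by simp [ht]))
    rw [hW.1, hd, run_map S T hι p d f hf] at h1
    exact (Option.some.inj h1).symm

theorem rigid_states {A : Bool × X × X → Prop} (h : Scan S T τ val A) (π : Y → X)
    (hπ : ∀ s x, π (val s x) = x) (I : (X → Y) → Prop) (hI : ∀ ι, I ι → Hom S T ι)
    (W : LWord X) (hR : Rigid T π I W) (hW : runW S W [] = some [])
    (hA : ∀ t ∈ evW S W [], A t) (s : σ) :
    ∃ ι, I ι ∧ AllSt S (fun d => dec τ val s d = d.map ι) W [] := by
  obtain ⟨ι, hι, hV⟩ := hR (decW S τ val s W [])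
    (by have := dec_runW S T τ val h s W [] [] hW hA; simpa [dec] using this)
    (dec_proj S τ val π hπ s W [] [] hW)
  exact ⟨ι, hι, states_of_eq S T τ val h ι (hI ι hι) s W [] [] hW hA hV rfl⟩

theorem ev_of_states (ι : X → Y) (s : σ) (W : LWord X) (d : List X)
    (h : AllSt S (fun d => dec τ val s d = d.map ι) W d) :
    ∀ t ∈ evW S W d, (∃ s', val s' t.2.1 = ι t.2.1) ∧ (∃ s', val s' t.2.2 = ι t.2.2) := by
  have key : ∀ (p : LPiece X) (d : List X), dec τ val s d = d.map ι → ∀ t ∈ p.ev d,
      (∃ s', val s' t.2.1 = ι t.2.1) ∧ (∃ s', val s' t.2.2 = ι t.2.2) := by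
    have key2 : ∀ (i : ℕ) (d : List X) (x y : X) (d' : List X), dec τ val s d = d.map ι →
        d.drop i = x :: y :: d' → (∃ s', val s' x = ι x) ∧ (∃ s', val s' y = ι y) := by
      intro i d x y d' hd hdrop
      have h1 : d = d.take i ++ (x :: y :: d') := by rw [← hdrop, List.take_append_drop]
      rw [h1, dec_append, List.map_append] at hd
      have h2 := (List.append_inj hd (by simp [dec_length])).2
      simp only [dec, List.map_cons, List.cons.injEq] at h2
      exact ⟨⟨_, h2.1⟩, ⟨_, h2.2.1⟩⟩
    intro p d hd t ht
    cases p with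
    | birth i x => simp [LPiece.ev] at ht
    | death i => simp [LPiece.ev] at ht
    | pos i =>
      simp only [LPiece.ev] at ht
      split at ht
      · next x y d' hdrop =>
        simp only [List.mem_singleton] at ht
        subst ht
        exact (key2 i d x y d' hd hdrop).symm
      · simp at ht
    | neg i =>
      simp only [LPiece.ev] at ht
      split at ht
      · next x y d' hdrop =>
        simp only [List.mem_singleton] at ht
        subst ht
        exact key2 i d x y d' hd hdrop
      · simp at ht
  induction W generalizing d with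
  | nil => intro t ht; simp [evW] at ht
  | cons p W ih =>
    intro t ht
    simp only [evW, List.mem_append] at ht
    rcases ht with ht | ht
    · exact key p d h.1 t ht
    · cases hp : p.run S d with
      | none => simp [hp] at ht
      | some e =>
        simp only [hp] at ht
        exact ih e (h.2 e hp) t ht

end

/-! ### The labels of our diagrams -/

/-- Labels of strands: `a k dir g` for a strand of the component `A_k` (directed downwards if
`dir = true`), `b k dir` for a strand of the component `B_k`. The bit `g` changes whenever the strand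
passes under the other one of the two components `A_0`, `A_1`. -/
inductive Lb : Type
  | a (k dir g : Bool) : Lb
  | b (k dir : Bool) : Lb
  deriving DecidableEq, Fintype

/-- The same labels, where strands of `A_0`, `A_1` also have a colour. -/
inductive Lv (M : Type) : Type
  | a (k dir g : Bool) (v : M) : Lv M
  | b (k dir : Bool) : Lv M
  deriving DecidableEq

/-- The rules for `Lb`. -/
def KLb : Kei Lb where
  bar := fun x => match x with
    | .a k d g => .a k (!d) g
    | .b k d => .b k (!d)
  act := fun y x => match y, x with
    | .a k _ _, .a k' d' g' => .a k' d' (xor g' (xor k k'))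
    | _, x => x
  bar_bar := by decide
  bar_act := by decide
  act_bar := by decide
  act_act := by decide
  act_self := by decide
  act_dist := by decide

/-- The rules for `Lv`: Fox colourings of `A_0 ∪ A_1`. -/
def KLv (M : Type) [CommRing M] : Kei (Lv M) where
  bar := fun x => match x with
    | .a k d g v => .a k (!d) g v
    | .b k d => .b k (!d)
  act := fun y x => match y, x with
    | .a k _ _ v, .a k' d' g' v' => .a k' d' (xor g' (xor k k')) (2 * v - v')
    | _, x => x
  bar_bar := by intro x; cases x <;> simp
  bar_act := by intro y x; cases y <;> cases x <;> simp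
  act_bar := by intro y x; cases y <;> cases x <;> simp
  act_act := by
    intro y x
    cases y <;> cases x <;> simp
  act_self := by
    intro x
    cases x <;> simp
    ring
  act_dist := by
    intro x y z
    cases x <;> cases y <;> cases z <;> simp
    refine ⟨?_, by ring⟩
    rename_i k1 _ g1 _ k2 _ _ _ k3 _ _ _
    cases k1 <;> cases k2 <;> cases k3 <;> cases g1 <;> rfl

/-- Forget the colours. -/
def prj {M : Type} : Lv M → Lb
  | .a k d g _ => .a k d g
  | .b k d => .b k d

/-- Colour `A_k` by `c k`. -/
def iota {M : Type} (c : Bool → M) : Lb → Lv M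
  | .a k d g => .a k d g (c k)
  | .b k d => .b k d

theorem hom_prj {M : Type} [CommRing M] : Hom (KLv M) KLb prj where
  bar := by intro x; cases x <;> rfl
  act := by intro y x; cases y <;> cases x <;> rfl

theorem hom_iota {M : Type} [CommRing M] (c : Bool → M) (hc : ∀ k k', 2 * c k - c k' = c k') :
    Hom KLb (KLv M) (iota c) where
  bar := by intro x; cases x <;> rfl
  act := by
    intro y x
    cases y <;> cases x <;> simp [KLb, KLv, iota, hc]

/-- All strands of `A_0 ∪ A_1` get the same colour in `ℤ/3`. -/
def I3 (ι : Lb → Lv (ZMod 3)) : Prop := ∃ c : ZMod 3, ι = iota (fun _ => c)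

/-- All strands of `A_0` get the same colour in `ℤ/2`, and all strands of `A_1`. -/
def I2 (ι : Lb → Lv (ZMod 2)) : Prop := ∃ c : Bool → ZMod 2, ι = iota c

theorem hom_I3 (ι) (h : I3 ι) : Hom KLb (KLv (ZMod 3)) ι := by
  obtain ⟨c, rfl⟩ := h
  exact hom_iota _ (fun _ _ => by ring)

theorem hom_I2 (ι) (h : I2 ι) : Hom KLb (KLv (ZMod 2)) ι := by
  obtain ⟨c, rfl⟩ := h
  refine hom_iota _ (fun k k' => ?_)
  generalize c k = u
  generalize c k' = v
  revert u v
  decide

/-- The sign of a direction. -/
def sd (b : Bool) : ℤ := if b then 1 else -1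

/-- The weight of crossings of `A_k` over `A_{!k}`. -/
def wAA (k : Bool) : Lb → Lb → ℤ
  | .a k1 d _, .a k2 d' _ => if k1 = k ∧ k2 = !k then sd d * sd d' else 0
  | _, _ => 0

/-- The weight of crossings of `A_k` over `B_j`. -/
def wAB (k j : Bool) : Lb → Lb → ℤ
  | .a k1 d _, .b k2 d' => if k1 = k ∧ k2 = j then sd d * sd d' else 0
  | _, _ => 0

/-- The weight of crossings of `B_j` over `A_k`. -/
def wBA (j k : Bool) : Lb → Lb → ℤ
  | .b k1 d, .a k2 d' _ => if k1 = j ∧ k2 = k then sd d * sd d' else 0
  | _, _ => 0

theorem good_AA (k : Bool) : Good KLb (wAA k) := by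
  cases k <;> exact ⟨by decide, by decide, by decide, by decide, by decide⟩

theorem good_AB (k j : Bool) : Good KLb (wAB k j) := by
  cases k <;> cases j <;> exact ⟨by decide, by decide, by decide, by decide, by decide⟩

theorem good_BA (j k : Bool) : Good KLb (wBA j k) := by
  cases k <;> cases j <;> exact ⟨by decide, by decide, by decide, by decide, by decide⟩

end Pool.Agent.Helper907.AA
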