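import Pool.Agent.Helper907.AA.Moves

/-! # Transport of labellings along moves -/

set_option autoImplicit false
set_option linter.unusedSectionVars false
set_option linter.unusedSimpArgs false
set_option linter.unusedVariables false

namespace Pool.Agent.Helper907.AA

open Piece

theorem pwidth_shift (i : ℕ) (p : Piece) (n : ℕ) :
    (p.shift i).width (i + n) = (p.width n).map (i + ·) := by
  cases p with
  | birth j =>
    simp only [Piece.shift, Piece.width]
    by_cases h : j ≤ n
    · rw [if_pos (by omega), if_pos h]; simp; omega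
    · rw [if_neg (by omega), if_neg h]; rfl
  | death j =>
    simp only [Piece.shift, Piece.width]
    by_cases h : j + 2 ≤ n
    · rw [if_pos (by omega), if_pos h]; simp; omega
    · rw [if_neg (by omega), if_neg h]; rfl
  | pos j =>
    simp only [Piece.shift, Piece.width]
    by_cases h : j + 2 ≤ n
    · rw [if_pos (by omega), if_pos h]; simp
    · rw [if_neg (by omega), if_neg h]; rfl
  | neg j =>
    simp only [Piece.shift, Piece.width]
    by_cases h : j + 2 ≤ n
    · rw [if_pos (by omega), if_pos h]; simp
    · rw [if_neg (by omega), if_neg h]; rfl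

theorem width_shift (i : ℕ) (w : Word) (n : ℕ) :
    width (w.map (Piece.shift i)) (i + n) = (width w n).map (i + ·) := by
  induction w generalizing n with
  | nil => rfl
  | cons p w ih =>
    simp only [List.map_cons, width, pwidth_shift]
    cases p.width n with
    | none => rfl
    | some m => simp [ih]

theorem le_of_pwidth (i : ℕ) (p : Piece) (n : ℕ) (h : ((p.shift i).width n).isSome) : i ≤ n := by
  cases p <;> simp only [Piece.shift, Piece.width] at h <;> split_ifs at h <;>
    first | omega | simp at h

theorem le_of_width (i : ℕ) (p : Piece) (w : Word) (n : ℕ)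
    (h : (width ((p :: w).map (Piece.shift i)) n).isSome) : i ≤ n := by
  simp only [List.map_cons, width] at h
  cases hp : (p.shift i).width n with
  | none => simp [hp] at h
  | some m => exact le_of_pwidth i p n (by simp [hp])

theorem width_append (v w : Word) (n : ℕ) :
    width (v ++ w) n = (width v n).bind (width w) := by
  induction v generalizing n with
  | nil => rfl
  | cons p v ih =>
    simp only [List.cons_append, width]
    cases p.width n with
    | none => rfl
    | some m => simp [ih]

section

variable {X : Type} (S : Kei X) [DecidableEq X]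

theorem unshift_piece (i : ℕ) (p : LPiece X) (q : Piece) (h : p.forget = q.shift i) :
    ∃ p0 : LPiece X, p = p0.shift i ∧ p0.forget = q := by
  cases q with
  | birth j =>
    obtain ⟨x, rfl⟩ := forget_eq_birth.1 h
    exact ⟨.birth j x, rfl, rfl⟩
  | death j => exact ⟨.death j, forget_eq_death.1 h, rfl⟩
  | pos j => exact ⟨.pos j, forget_eq_pos.1 h, rfl⟩
  | neg j => exact ⟨.neg j, forget_eq_neg.1 h, rfl⟩

theorem unshift (i : ℕ) (L : LWord X) (w : Word)
    (h : L.map LPiece.forget = w.map (Piece.shift i)) :
    ∃ L0 : LWord X, L = L0.map (LPiece.shift i) ∧ L0.map LPiece.forget = w := by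
  induction L generalizing w with
  | nil =>
    cases w with
    | nil => exact ⟨[], rfl, rfl⟩
    | cons q w => simp at h
  | cons p L ih =>
    cases w with
    | nil => simp at h
    | cons q w =>
      simp only [List.map_cons, List.cons.injEq] at h
      obtain ⟨p0, rfl, hp0⟩ := unshift_piece i p q h.1
      obtain ⟨L0, rfl, hL0⟩ := ih w h.2
      exact ⟨p0 :: L0, rfl, by simp [hp0, hL0]⟩

theorem forget_shift (i : ℕ) (p : LPiece X) : (p.shift i).forget = p.forget.shift i := by
  cases p <;> rfl

theorem forget_shift_map (i : ℕ) (L : LWord X) :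
    (L.map (LPiece.shift i)).map LPiece.forget = (L.map LPiece.forget).map (Piece.shift i) := by
  simp [Function.comp_def, forget_shift]

theorem le_of_run (L : LWord X) (d e : List X) (h : runW S L d = some e) :
    (width (L.map LPiece.forget) d.length).isSome := by
  rw [width_of_runW S L d e h]; rfl

/-- Local moves and their inverses. -/
def Loc (l r : Word) : Prop :=
  (LocalMove l r ∨ FirstMove l r) ∨ (LocalMove r l ∨ FirstMove r l)

theorem Loc.symm {l r : Word} (h : Loc l r) : Loc r l := Or.symm h

theorem base_ne {l r : Word} (h : Base l r) : l ≠ [] ∨ r ≠ [] := by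
  cases h <;> simp

theorem loc_base {l r : Word} (h : Loc l r) :
    ∃ (i : ℕ) (l' r' : Word), (Base l' r' ∨ Base r' l') ∧ l = l'.map (Piece.shift i) ∧
      r = r'.map (Piece.shift i) := by
  rcases h with h | h
  · obtain ⟨i, l', r', hb, rfl, rfl⟩ := base_of_local h
    exact ⟨i, l', r', Or.inl hb, rfl, rfl⟩
  · obtain ⟨i, l', r', hb, rfl, rfl⟩ := base_of_local h
    exact ⟨i, r', l', Or.inr hb, rfl, rfl⟩

theorem loc_le {l' r' : Word} (hb : Base l' r' ∨ Base r' l') (i n : ℕ)
    (h1 : (width (l'.map (Piece.shift i)) n).isSome)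
    (h2 : (width (r'.map (Piece.shift i)) n).isSome) : i ≤ n := by
  cases l' with
  | cons p w => exact le_of_width i p w n h1
  | nil =>
    cases r' with
    | cons p w => exact le_of_width i p w n h2
    | nil => rcases hb with hb | hb <;> cases hb

theorem loc_lift {l r : Word} (h : Loc l r) (L : LWord X) (d e : List X)
    (hL : L.map LPiece.forget = l) (hr : runW S L d = some e) (hw : (width r d.length).isSome) :
    ∃ R : LWord X, R.map LPiece.forget = r ∧ runW S R d = some e ∧
      ∀ ψ, Good S ψ → sumE ψ (evW S R d) = sumE ψ (evW S L d) := by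
  obtain ⟨i, l', r', hb, rfl, rfl⟩ := loc_base h
  have hw' := le_of_run S L d e hr
  rw [hL] at hw'
  have hi := loc_le hb i d.length hw' hw
  obtain ⟨L0, rfl, rfl⟩ := unshift i L l' hL
  obtain ⟨a, d', rfl, ha⟩ : ∃ a d', d = a ++ d' ∧ a.length = i :=
    ⟨d.take i, d.drop i, (List.take_append_drop i d).symm, by simp [hi]⟩
  subst ha
  rw [runW_shift] at hr
  simp only [Option.map_eq_some_iff] at hr
  obtain ⟨e', he', rfl⟩ := hr
  rw [List.length_append, width_shift] at hw
  have hw0 : (width r' d'.length).isSome := by
    cases hh : width r' d'.length with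
    | none => simp [hh] at hw
    | some _ => rfl
  have key : ∃ R : LWord X, R.map LPiece.forget = r' ∧ runW S R d' = some e' ∧
      ∀ ψ, Good S ψ → sumE ψ (evW S R d') = sumE ψ (evW S L0 d') := by
    rcases hb with hb | hb
    · exact base_lift S hb L0 d' e' rfl he' hw0
    · obtain ⟨R, h1, h2, h3⟩ := base_lift' S hb L0 d' e' rfl he' hw0
      exact ⟨R, h1, h2, fun ψ hψ => (h3 ψ hψ).symm⟩
  obtain ⟨R, h1, h2, h3⟩ := key
  refine ⟨R.map (LPiece.shift a.length), ?_, ?_, ?_⟩
  · rw [forget_shift_map, h1]
  · rw [runW_shift, h2]; rfl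
  · intro ψ hψ
    rw [evW_shift, evW_shift, h3 ψ hψ]

theorem loc_unique {l r : Word} (h : Loc l r) (L L' : LWord X) (d e : List X)
    (hL : L.map LPiece.forget = l) (hL' : L'.map LPiece.forget = l)
    (hr : runW S L d = some e) (hr' : runW S L' d = some e) : L = L' := by
  obtain ⟨i, l', r', hb, rfl, rfl⟩ := loc_base h
  cases hl' : l' with
  | nil =>
    subst hl'
    simp only [List.map_nil, List.map_eq_nil_iff] at hL hL'
    rw [hL, hL']
  | cons p w =>
    have hw' := le_of_run S L d e hr
    rw [hL, hl'] at hw'
    have hi := le_of_width i p w _ hw'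
    obtain ⟨L0, rfl, hL0⟩ := unshift i L l' hL
    obtain ⟨L0', rfl, hL0'⟩ := unshift i L' l' hL'
    obtain ⟨a, d', rfl, ha⟩ : ∃ a d', d = a ++ d' ∧ a.length = i :=
      ⟨d.take i, d.drop i, (List.take_append_drop i d).symm, by simp [hi]⟩
    subst ha
    rw [runW_shift] at hr hr'
    simp only [Option.map_eq_some_iff] at hr hr'
    obtain ⟨e', he', rfl⟩ := hr
    obtain ⟨e'', he'', h9⟩ := hr'
    simp only [List.append_cancel_left_eq] at h9
    subst h9
    rw [base_unique S hb L0 L0' d' _ hL0 hL0' he' he'']

end

/-- Maps between label sets. -/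
structure Hom {X Y : Type} (S : Kei X) (T : Kei Y) (f : X → Y) : Prop where
  bar : ∀ x, f (S.bar x) = T.bar (f x)
  act : ∀ y x, f (S.act y x) = T.act (f y) (f x)

section

variable {X Y : Type} (S : Kei X) (T : Kei Y) [DecidableEq X] [DecidableEq Y]

theorem at'_map (f : X → Y) (k : List X → Option (List X)) (k' : List Y → Option (List Y))
    (hk : ∀ d e, k d = some e → k' (d.map f) = some (e.map f)) (i : ℕ) (d e : List X)
    (h : at' k i d = some e) : at' k' i (d.map f) = some (e.map f) := by
  obtain ⟨a, d', e', ha, rfl, h', rfl⟩ := (at'_eq_some _ _ _ _).1 h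
  rw [List.map_append, List.map_append]
  exact (at'_eq_some _ _ _ _).2 ⟨a.map f, d'.map f, e'.map f, by simpa using ha, rfl, hk _ _ h', rfl⟩

theorem run_map {f : X → Y} (hf : Hom S T f) (p : LPiece X) (d e : List X)
    (h : p.run S d = some e) : (p.map f).run T (d.map f) = some (e.map f) := by
  cases p with
  | birth i x =>
    refine at'_map f (kb S x) _ ?_ i d e h
    intro d e h
    simp only [kb, Option.some.injEq] at h
    subst h
    simp [kb, hf.bar]
  | death i =>
    refine at'_map f (kd S) _ ?_ i d e h
    intro d e h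
    rcases d with _ | ⟨x, _ | ⟨y, d⟩⟩ <;> simp [kd] at h
    obtain ⟨rfl, rfl⟩ := h
    simp [kd, hf.bar]
  | pos i =>
    refine at'_map f (kp S) _ ?_ i d e h
    intro d e h
    rcases d with _ | ⟨x, _ | ⟨y, d⟩⟩ <;> simp [kp] at h
    subst h
    simp [kp, hf.act]
  | neg i =>
    refine at'_map f (kn S) _ ?_ i d e h
    intro d e h
    rcases d with _ | ⟨x, _ | ⟨y, d⟩⟩ <;> simp [kn] at h
    subst h
    simp [kn, hf.act]

theorem runW_map {f : X → Y} (hf : Hom S T f) (W : LWord X) (d e : List X)
    (h : runW S W d = some e) : runW T (W.map (LPiece.map f)) (d.map f) = some (e.map f) := by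
  induction W generalizing d with
  | nil => simp only [runW_nil, Option.some.injEq] at h; subst h; rfl
  | cons p W ih =>
    simp only [runW_cons, Option.bind_eq_some_iff] at h
    obtain ⟨g, hg, h⟩ := h
    simp only [List.map_cons, runW_cons, run_map S T hf p d g hg, Option.bind_some]
    exact ih g h

theorem map_forget (f : X → Y) (W : LWord X) :
    (W.map (LPiece.map f)).map LPiece.forget = W.map LPiece.forget := by
  simp [Function.comp_def]

/-- A labelled version of one move. -/
inductive LStep : LWord X → LWord X → Prop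
  | mk (x l r y : LWord X) (d e : List X) : Loc (l.map LPiece.forget) (r.map LPiece.forget) →
      runW S x [] = some d → runW S l d = some e → runW S r d = some e → runW S y e = some [] →
      LStep (x ++ l ++ y) (x ++ r ++ y)

/-- All labellings which refine the labelling `W` are of the form `W.map ι`. -/
def Rigid (π : Y → X) (I : (X → Y) → Prop) (W : LWord X) : Prop :=
  ∀ V : LWord Y, runW T V [] = some [] → V.map (LPiece.map π) = W →
    ∃ ι, I ι ∧ V = W.map (LPiece.map ι)

theorem split_map {α β : Type} (f : α → β) (V : List α) (x y : List β) (h : V.map f = x ++ y) :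
    ∃ a b, V = a ++ b ∧ a.map f = x ∧ b.map f = y :=
  List.map_eq_append_iff.1 h

theorem rigid_step (π : Y → X) (hπ : Hom T S π) (I : (X → Y) → Prop)
    (hI : ∀ ι, I ι → Hom S T ι) (W W' : LWord X) (h : LStep S W W')
    (hW : Rigid T π I W) : Rigid T π I W' := by
  cases h with
  | mk x l r y d e hloc hx hl hr hy =>
  intro V' hV' hπV'
  obtain ⟨xr, yy, rfl, hxr, hyy⟩ := split_map _ V' _ _ hπV'
  obtain ⟨xx, rr, rfl, hxx, hrr⟩ := split_map _ xr _ _ hxr
  rw [runW_append, runW_append] at hV'
  simp only [Option.bind_eq_some_iff] at hV'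
  obtain ⟨e1, ⟨d1, hd1, he1⟩, hend⟩ := hV'
  -- the states project correctly
  have hd : d1.map π = d := by
    have := runW_map T S hπ xx [] d1 hd1
    rw [hxx, List.map_nil, hx] at this
    exact (Option.some.inj this).symm
  have he : e1.map π = e := by
    have := runW_map T S hπ rr d1 e1 he1
    rw [hrr, hd, hr] at this
    exact (Option.some.inj this).symm
  have hrf : rr.map LPiece.forget = r.map LPiece.forget := by
    rw [← hrr, map_forget]
  have hlen : d1.length = d.length := by rw [← hd, List.length_map]
  obtain ⟨ll, hll, hll2, -⟩ := loc_lift T hloc.symm rr d1 e1 hrf he1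
    (by rw [hlen]; exact le_of_run S l d e hl)
  have hπll : ll.map (LPiece.map π) = l := by
    apply loc_unique S hloc _ _ d e _ rfl _ hl
    · rw [map_forget, hll]
    · have := runW_map T S hπ ll d1 e1 hll2
      rwa [hd, he] at this
  obtain ⟨ι, hι, hV⟩ := hW (xx ++ ll ++ yy)
    (by rw [runW_append, runW_append, hd1]; simp only [Option.bind_some, hll2]; exact hend)
    (by simp only [List.map_append, hxx, hyy, hπll])
  have hlx : xx.length = x.length := by rw [← hxx, List.length_map]
  have hll' : ll.length = l.length := by rw [← hπll, List.length_map]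
  simp only [List.map_append, List.append_assoc] at hV
  obtain ⟨h1, h2⟩ := List.append_inj hV (by simp [hlx])
  obtain ⟨h2, h3⟩ := List.append_inj h2 (by simp [hll'])
  refine ⟨ι, hι, ?_⟩
  have hιd : d1 = d.map ι := by
    have := runW_map S T (hI ι hι) x [] d hx
    rw [← h1, List.map_nil, hd1] at this
    exact Option.some.inj this
  have hιe : e1 = e.map ι := by
    have := runW_map S T (hI ι hι) l d e hl
    rw [← h2, ← hιd, hll2] at this
    exact Option.some.inj this
  have h4 : rr = r.map (LPiece.map ι) := by
    apply loc_unique T hloc.symm _ _ d1 e1 hrf _ he1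
    · rw [hιd, hιe]
      exact runW_map S T (hI ι hι) r d e hr
    · rw [map_forget]
  simp only [List.map_append, ← h1, ← h3, ← h4]

/-- Lifting one move. -/
theorem lift_step (w w' : Word) (h : Step w w' ∨ Step w' w) (W : LWord X)
    (hf : W.map LPiece.forget = w) (hW : runW S W [] = some []) :
    ∃ W' : LWord X, W'.map LPiece.forget = w' ∧ runW S W' [] = some [] ∧ LStep S W W' ∧
      ∀ ψ, Good S ψ → sumE ψ (evW S W' []) = sumE ψ (evW S W []) := by
  obtain ⟨x, l, r, y, hloc, rfl, rfl, hc⟩ : ∃ x l r y, Loc l r ∧ w = x ++ l ++ y ∧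
      w' = x ++ r ++ y ∧ Closed (x ++ r ++ y) := by
    rcases h with h | h
    · cases h with
      | mk x l r y h h1 h2 => exact ⟨x, l, r, y, Or.inl h, rfl, rfl, h2⟩
    · cases h with
      | mk x l r y h h1 h2 => exact ⟨x, r, l, y, Or.inr h, rfl, rfl, h1⟩
  obtain ⟨xl, yy, rfl, hxl, hyy⟩ := split_map _ W _ _ hf
  obtain ⟨xx, ll, rfl, hxx, hll⟩ := split_map _ xl _ _ hxl
  rw [runW_append, runW_append] at hW
  simp only [Option.bind_eq_some_iff] at hW
  obtain ⟨e, ⟨d, hd, he⟩, hend⟩ := hW
  have hw1 : width x 0 = some d.length := by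
    have := width_of_runW S xx [] d hd
    rwa [hxx] at this
  have hw : (width r d.length).isSome := by
    have := hc
    unfold Closed at this
    rw [width_append, width_append, hw1] at this
    simp only [Option.bind_some] at this
    cases hh : width r d.length with
    | none => simp [hh] at this
    | some _ => rfl
  obtain ⟨rr, hrr, hrr2, hψ⟩ := loc_lift S hloc ll d e hll he hw
  refine ⟨xx ++ rr ++ yy, ?_, ?_, ?_, ?_⟩
  · simp only [List.map_append, hxx, hrr, hyy]
  · rw [runW_append, runW_append, hd]; simp only [Option.bind_some, hrr2]; exact hend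
  · exact LStep.mk xx ll rr yy d e (by rw [hll, hrr]; exact hloc) hd he hrr2 hend
  · intro ψ h
    rw [List.append_assoc, List.append_assoc, evW_append S _ _ _ _ hd, evW_append S _ _ _ _ hrr2,
      evW_append S _ _ _ _ hd, evW_append S _ _ _ _ he]
    simp only [sumE_append, hψ ψ h]

end

end Pool.Agent.Helper907.AA
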